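import Mathlib

/-! Definitions for the Wiener index problem MP_ed5641_co. -/

namespace H75.WI

/-- The Wiener index of a graph on `Fin n`: the sum of the distances over all unordered pairs of
distinct vertices (each pair `u < v` counted once). -/
noncomputable def wiener {n : ℕ} (G : SimpleGraph (Fin n)) : ℕ :=
  ∑ u : Fin n, ∑ v : Fin n, if u < v then G.dist u v else 0

/-- a leaf: exactly one neighbour -/
def IsLeaf {V : Type*} (G : SimpleGraph V) (v : V) : Prop := (G.neighborSet v).ncard = 1

/-- a broom vertex: adjacent to at least one leaf -/
def IsBroomVertex {V : Type*} (G : SimpleGraph V) (v : V) : Prop := ∃ w, G.Adj v w ∧ IsLeaf G w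

/-- a double broom: a tree with exactly two broom vertices -/
def IsDoubleBroom {V : Type*} (G : SimpleGraph V) : Prop :=
  G.IsTree ∧ {v | IsBroomVertex G v}.ncard = 2

end H75.WI
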