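import Pool.Agent.H75.WI.Upper
import Pool.Agent.H75.WI.Defs

namespace H75.WI

open Finset

/-- parent in the double broom with vertices `0, ..., d` on the path -/
def bpar (d a i : ℕ) : ℕ := if i ≤ d then i - 1 else if i ≤ d + a then 1 else d - 1

/-- position -/
def bpos (d a i : ℕ) : ℕ := if i ≤ d then i else if i ≤ d + a then 0 else d

/-- anchor -/
def banc (d a i : ℕ) : ℕ :=
  if i = 0 then 1 else if i < d then i else if i = d then d - 1 else if i ≤ d + a then 1 else d - 1

lemma bpar_lt {d a i : ℕ} (hd : 3 ≤ d) (hi : 1 ≤ i) : bpar d a i < i := by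
  unfold bpar; split_ifs <;> omega

def broom (n d a : ℕ) (hd : 3 ≤ d) : SimpleGraph (Fin n) where
  Adj x y := (1 ≤ x.val ∧ bpar d a x = y) ∨ (1 ≤ y.val ∧ bpar d a y = x)
  symm := ⟨fun x y h => h.symm⟩
  loopless := ⟨fun x h => by
    rcases h with ⟨h1, h2⟩ | ⟨h1, h2⟩ <;>
    · have := bpar_lt (a := a) hd h1
      omega⟩

variable {n d a : ℕ} (hd : 3 ≤ d)

lemma broom_adj_pos {x y : Fin n} (h : (broom n d a hd).Adj x y) :
    bpos d a x + 1 = bpos d a y ∨ bpos d a y + 1 = bpos d a x := by
  have key : ∀ x y : Fin n, 1 ≤ x.val → bpar d a x = y →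
      bpos d a x + 1 = bpos d a y ∨ bpos d a y + 1 = bpos d a x := by
    intro x y h1 h2
    rw [← h2]
    unfold bpar bpos
    split_ifs <;> omega
  rcases h with ⟨h1, h2⟩ | ⟨h1, h2⟩
  · exact key x y h1 h2
  · exact (key y x h1 h2).symm

lemma broom_conn (hn : d + 1 ≤ n) : (broom n d a hd).Connected := by
  have key : ∀ k, ∀ x : Fin n, x.val = k → (broom n d a hd).Reachable x ⟨0, by omega⟩ := by
    intro k
    induction k using Nat.strong_induction_on with
    | _ k ih =>
      intro x hx
      rcases Nat.eq_zero_or_pos k with h0 | h0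
      · have : x = ⟨0, by omega⟩ := by ext; simp; omega
        rw [this]
      · have h1 : 1 ≤ x.val := by omega
        have h2 := bpar_lt (a := a) hd h1
        have hadj : (broom n d a hd).Adj x ⟨bpar d a x, by omega⟩ := Or.inl ⟨h1, rfl⟩
        exact hadj.reachable.trans (ih (bpar d a x) (by omega) _ rfl)
  have : Nonempty (Fin n) := ⟨⟨0, by omega⟩⟩
  refine SimpleGraph.Connected.mk ?_
  intro x y
  exact (key _ x rfl).trans (key _ y rfl).symm

lemma broom_dist_ge (hn : d + 1 ≤ n) (x y : Fin n) :
    (bpos d a x : ℤ) - bpos d a y ≤ (broom n d a hd).dist x y ∧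
    (bpos d a y : ℤ) - bpos d a x ≤ (broom n d a hd).dist x y := by
  obtain ⟨p, hp⟩ := (broom_conn (a := a) hd hn).exists_walk_length_eq_dist x y
  rw [← hp]
  clear hp
  induction p with
  | nil => simp
  | @cons u v w h q ih =>
    have := broom_adj_pos hd h
    rw [SimpleGraph.Walk.length_cons]
    omega

lemma broom_dist_two (hn : d + 1 ≤ n) (x y : Fin n) (hxy : x ≠ y)
    (hp : bpos d a x = bpos d a y) : 2 ≤ (broom n d a hd).dist x y := by
  apply (broom_conn (a := a) hd hn).one_lt_dist_of_ne_of_not_adj hxy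
  intro h
  have := broom_adj_pos hd h
  omega

lemma broom_path (hn : d + 1 ≤ n) (i j : ℕ) (hij : i ≤ j) (hj : j ≤ d) :
    (broom n d a hd).dist ⟨i, by omega⟩ ⟨j, by omega⟩ ≤ j - i := by
  induction j, hij using Nat.le_induction with
  | base => simp
  | succ j hij ih =>
    have h1 := ih (by omega)
    have hadj : (broom n d a hd).Adj ⟨j, by omega⟩ ⟨j + 1, by omega⟩ := by
      right
      refine ⟨by simp, ?_⟩
      simp only [bpar]
      rw [if_pos (by omega)]; omega
    have h2 := SimpleGraph.dist_eq_one_iff_adj.2 hadj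
    have h3 := (broom_conn (a := a) hd hn).dist_triangle (u := ⟨i, by omega⟩) (v := ⟨j, by omega⟩)
      (w := ⟨j + 1, by omega⟩)
    omega

lemma broom_anc (_hn : d + 1 ≤ n) (x : Fin n) :
    1 ≤ banc d a x ∧ banc d a x + 1 ≤ d ∧
    ∀ h : banc d a x < n, (broom n d a hd).dist x ⟨banc d a x, h⟩ ≤ 1 := by
  have h1 : 1 ≤ banc d a x := by unfold banc; split_ifs <;> omega
  have h2 : banc d a x + 1 ≤ d := by unfold banc; split_ifs <;> omega
  refine ⟨h1, h2, ?_⟩
  intro h
  by_cases hx : x.val = banc d a x
  · have : x = ⟨banc d a x, h⟩ := Fin.ext hx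
    rw [← this]; simp
  · have hadj : (broom n d a hd).Adj x ⟨banc d a x, h⟩ := by
      by_cases h0 : x.val = 0
      · right
        simp only [banc, h0, if_true, bpar]
        refine ⟨le_rfl, ?_⟩
        rw [if_pos (by omega)]
      · left
        refine ⟨by omega, ?_⟩
        simp only [banc, bpar]
        simp only [banc] at hx
        split_ifs at hx ⊢ <;> omega
    rw [SimpleGraph.dist_eq_one_iff_adj.2 hadj]

lemma broom_diam (hn : d + 1 ≤ n) : (broom n d a hd).diam = d := by
  have hc := broom_conn (a := a) hd hn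
  have hup : ∀ x y, (broom n d a hd).dist x y ≤ d := by
    have key : ∀ x y : Fin n, banc d a x ≤ banc d a y → (broom n d a hd).dist x y ≤ d := by
      intro x y hxy
      obtain ⟨a1, a2, a3⟩ := broom_anc (a := a) hd hn x
      obtain ⟨b1, b2, b3⟩ := broom_anc (a := a) hd hn y
      have hx' : banc d a x < n := by omega
      have hy' : banc d a y < n := by omega
      have e1 := hc.dist_triangle (u := x) (v := ⟨banc d a x, hx'⟩) (w := y)
      have e2 := hc.dist_triangle (u := ⟨banc d a x, hx'⟩) (v := ⟨banc d a y, hy'⟩) (w := y)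
      have e3 := broom_path (a := a) hd hn (banc d a x) (banc d a y) hxy (by omega)
      have e4 := a3 hx'
      have e5 := b3 hy'
      rw [SimpleGraph.dist_comm] at e5
      omega
    intro x y
    rcases le_total (banc d a x) (banc d a y) with h | h
    · exact key x y h
    · rw [SimpleGraph.dist_comm]; exact key y x h
  have hne : Nonempty (Fin n) := ⟨⟨0, by omega⟩⟩
  apply le_antisymm
  · obtain ⟨u, v, huv⟩ := SimpleGraph.exists_dist_eq_diam (G := broom n d a hd)
    rw [← huv]; exact hup u v
  · have h1 := (broom_dist_ge (a := a) hd hn ⟨0, by omega⟩ ⟨d, by omega⟩).2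
    have h2 : (broom n d a hd).dist ⟨0, by omega⟩ ⟨d, by omega⟩ ≤ (broom n d a hd).diam :=
      SimpleGraph.dist_le_diam (SimpleGraph.connected_iff_ediam_ne_top.1 hc)
    simp only [bpos, le_refl, if_true, Nat.zero_le] at h1
    omega

lemma broom_tree (hn : d + 1 ≤ n) : (broom n d a hd).IsTree := by
  rw [SimpleGraph.isTree_iff_connected_and_card]
  refine ⟨broom_conn hd hn, ?_⟩
  have hlt : ∀ x : {x : Fin n // 1 ≤ x.val}, bpar d a x.1 < n := fun x => by
    have := bpar_lt (a := a) hd x.2
    omega
  let f : {x : Fin n // 1 ≤ x.val} → (broom n d a hd).edgeSet := fun x =>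
    ⟨s(x.1, ⟨bpar d a x.1, hlt x⟩), by
      rw [SimpleGraph.mem_edgeSet]
      exact Or.inl ⟨x.2, rfl⟩⟩
  have hf : Function.Bijective f := by
    constructor
    · intro x y hxy
      have h1 : s(x.1, (⟨bpar d a x.1, hlt x⟩ : Fin n)) = s(y.1, ⟨bpar d a y.1, hlt y⟩) :=
        congrArg Subtype.val hxy
      rw [Sym2.eq_iff] at h1
      rcases h1 with ⟨h1, _⟩ | ⟨h1, h2⟩
      · exact Subtype.ext h1
      · have e1 := bpar_lt (a := a) hd x.2
        have e2 := bpar_lt (a := a) hd y.2
        have h1' := congrArg Fin.val h1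
        have h2' := congrArg Fin.val h2
        simp only at h1' h2'
        omega
    · rintro ⟨e, he⟩
      induction e using Sym2.ind with
      | _ u v =>
        rw [SimpleGraph.mem_edgeSet] at he
        rcases he with ⟨h1, h2⟩ | ⟨h1, h2⟩
        · refine ⟨⟨u, h1⟩, ?_⟩
          apply Subtype.ext
          have e : (⟨bpar d a u, hlt ⟨u, h1⟩⟩ : Fin n) = v := Fin.ext h2
          show s(u, (⟨bpar d a u, hlt ⟨u, h1⟩⟩ : Fin n)) = s(u, v)
          rw [e]
        · refine ⟨⟨v, h1⟩, ?_⟩
          apply Subtype.ext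
          have e : (⟨bpar d a v, hlt ⟨v, h1⟩⟩ : Fin n) = u := Fin.ext h2
          show s(v, (⟨bpar d a v, hlt ⟨v, h1⟩⟩ : Fin n)) = s(u, v)
          rw [e, Sym2.eq_swap]
  rw [← Nat.card_congr (Equiv.ofBijective f hf), Nat.card_eq_fintype_card, Nat.card_eq_fintype_card,
    Fintype.card_fin, Fintype.card_subtype]
  have : (Finset.univ.filter (fun x : Fin n => 1 ≤ x.val)) = Finset.univ.erase ⟨0, by omega⟩ := by
    ext x
    simp only [Finset.mem_filter, Finset.mem_univ, true_and, Finset.mem_erase, and_true, ne_eq,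
      Fin.ext_iff]
    omega
  rw [this, Finset.card_erase_of_mem (Finset.mem_univ _), Finset.card_univ, Fintype.card_fin]
  omega

lemma broom_leaf (hn : d + 1 ≤ n) (y : Fin n) :
    IsLeaf (broom n d a hd) y ↔ (y.val = 0 ∨ d ≤ y.val) := by
  constructor
  · intro h
    by_contra hc
    push Not at hc
    obtain ⟨w, hw⟩ := Set.ncard_eq_one.1 h
    have m1 : (⟨y.val - 1, by omega⟩ : Fin n) ∈ (broom n d a hd).neighborSet y := by
      rw [SimpleGraph.mem_neighborSet]
      left
      refine ⟨by omega, ?_⟩
      simp only [bpar]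
      rw [if_pos (by omega)]
    have m2 : (⟨y.val + 1, by omega⟩ : Fin n) ∈ (broom n d a hd).neighborSet y := by
      rw [SimpleGraph.mem_neighborSet]
      right
      refine ⟨by simp, ?_⟩
      simp only [bpar]
      rw [if_pos (by omega)]; omega
    rw [hw, Set.mem_singleton_iff] at m1 m2
    have := m1.trans m2.symm
    rw [Fin.ext_iff] at this
    simp only at this
    omega
  · intro h
    unfold IsLeaf
    rw [Set.ncard_eq_one]
    have hb : banc d a y < n := by
      have := (broom_anc (a := a) hd hn y).2.1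
      omega
    refine ⟨⟨banc d a y, hb⟩, ?_⟩
    ext x
    rw [SimpleGraph.mem_neighborSet, Set.mem_singleton_iff, Fin.ext_iff]
    constructor
    · rintro (⟨h1, h2⟩ | ⟨h1, h2⟩)
      · simp only [banc]
        simp only [bpar] at h2
        split_ifs at h2 ⊢ <;> omega
      · simp only [banc]
        simp only [bpar] at h2
        split_ifs at h2 ⊢ <;> omega
    · intro hx
      simp only [banc] at hx
      by_cases h0 : y.val = 0
      · right
        rw [if_pos h0] at hx
        refine ⟨by omega, ?_⟩
        simp only [bpar]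
        rw [if_pos (by omega)]; omega
      · left
        refine ⟨by omega, ?_⟩
        simp only [bpar]
        split_ifs at hx ⊢ <;> omega

lemma broom_double (hn : d + 1 ≤ n) : IsDoubleBroom (broom n d a hd) := by
  refine ⟨broom_tree hd hn, ?_⟩
  have : {v | IsBroomVertex (broom n d a hd) v} =
      {(⟨1, by omega⟩ : Fin n), ⟨d - 1, by omega⟩} := by
    ext v
    simp only [Set.mem_ofPred_eq, Set.mem_insert_iff, Set.mem_singleton_iff]
    constructor
    · rintro ⟨w, hvw, hw⟩
      rw [broom_leaf hd hn] at hw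
      rcases hvw with ⟨h1, h2⟩ | ⟨h1, h2⟩
      · simp only [bpar] at h2
        rw [Fin.ext_iff, Fin.ext_iff]
        simp only
        split_ifs at h2 <;> omega
      · simp only [bpar] at h2
        rw [Fin.ext_iff, Fin.ext_iff]
        simp only
        split_ifs at h2 <;> omega
    · rintro (rfl | rfl)
      · refine ⟨⟨0, by omega⟩, ?_, ?_⟩
        · left
          refine ⟨le_rfl, ?_⟩
          simp only [bpar]
          rw [if_pos (by omega)]
        · rw [broom_leaf hd hn]; left; rfl
      · refine ⟨⟨d, by omega⟩, ?_, ?_⟩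
        · right
          refine ⟨by simp only; omega, ?_⟩
          simp only [bpar]
          rw [if_pos le_rfl]
        · rw [broom_leaf hd hn]; right; exact le_rfl
  rw [this, Set.ncard_pair]
  intro h
  rw [Fin.ext_iff] at h
  simp only at h
  omega

/-- sums over positions -/
lemma bpos_sum (b : ℕ) (F : ℕ → ℤ) (hn : n = d + 1 + (a + b)) :
    ∑ x : Fin n, F (bpos d a x) = ∑ i ∈ Finset.range (d + 1), F i + a * F 0 + b * F d := by
  rw [Fin.sum_univ_eq_sum_range (fun i => F (bpos d a i)) n, hn,
    Finset.sum_range_add (fun i => F (bpos d a i)) (d + 1) (a + b),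
    Finset.sum_range_add (fun k => F (bpos d a (d + 1 + k))) a b]
  have e1 : ∑ i ∈ Finset.range (d + 1), F (bpos d a i) = ∑ i ∈ Finset.range (d + 1), F i := by
    apply Finset.sum_congr rfl
    intro i hi
    rw [Finset.mem_range] at hi
    simp only [bpos]; rw [if_pos (by omega)]
  have e2 : ∑ k ∈ Finset.range a, F (bpos d a (d + 1 + k)) = ∑ k ∈ Finset.range a, F 0 := by
    apply Finset.sum_congr rfl
    intro i hi
    rw [Finset.mem_range] at hi
    simp only [bpos]; rw [if_neg (by omega), if_pos (by omega)]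
  have e3 : ∑ k ∈ Finset.range b, F (bpos d a (d + 1 + (a + k))) = ∑ k ∈ Finset.range b, F d := by
    apply Finset.sum_congr rfl
    intro i hi
    rw [Finset.mem_range] at hi
    simp only [bpos]; rw [if_neg (by omega), if_neg (by omega)]
  rw [e1, e2, e3, Finset.sum_const, Finset.sum_const, Finset.card_range, Finset.card_range,
    nsmul_eq_mul, nsmul_eq_mul]
  ring

end H75.WI
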