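import Pool.Agent.H75.WI.Met

universe u

namespace H75.WI

open Finset

lemma gmet_of_connected {V : Type*} {G : SimpleGraph V} (hG : G.Connected) :
    GMet (fun u v => G.dist u v) where
  self := fun u => SimpleGraph.dist_self
  symm := fun u v => SimpleGraph.dist_comm
  tri := fun u v w => hG.dist_triangle
  step := fun u v huv => by
    obtain ⟨p, hp⟩ := hG.exists_walk_length_eq_dist u v
    cases p with
    | nil => exact absurd rfl huv
    | @cons _ w _ h q =>
      refine ⟨w, SimpleGraph.dist_eq_one_iff_adj.2 h, ?_⟩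
      have h1 : G.dist w v ≤ q.length := SimpleGraph.dist_le q
      have h2 : G.dist u v ≤ G.dist u w + G.dist w v := hG.dist_triangle
      have h3 : G.dist u w = 1 := SimpleGraph.dist_eq_one_iff_adj.2 h
      rw [SimpleGraph.Walk.length_cons] at hp
      show G.dist w v + 1 = G.dist u v
      omega

lemma two_sum_range (n : ℕ) : 2 * ∑ i ∈ Finset.range (n + 1), i = n * (n + 1) := by
  have := Finset.sum_range_id_mul_two (n + 1)
  simp only [Nat.add_sub_cancel] at this
  linarith

/-- level sum bound -/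
lemma GMet.level {V : Type*} [Fintype V] [DecidableEq V] {D : V → V → ℕ} (hD : GMet D) (u : V) :
    2 * ∑ v, (D u v : ℤ) ≤ (Fintype.card V : ℤ) * (Fintype.card V - 1) := by
  obtain ⟨x, -, hx⟩ := Finset.exists_max_image (Finset.univ : Finset V) (D u) ⟨u, Finset.mem_univ u⟩
  obtain ⟨p, p0, pn, p1, p2⟩ := hD.geo (D u x) u x rfl
  set M := D u x with hM
  have pd : ∀ i ≤ M, D u (p i) = i := by
    intro i hi
    have e1 := hD.chain p M (fun i hi => (p2 i hi).le) 0 i (by omega) hi
    rw [p0] at e1
    have e2 := p1 i hi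
    have e3 := hD.tri u (p i) x
    omega
  set S := (Finset.range (M + 1)).image p with hS
  have inj : Set.InjOn p (Finset.range (M + 1) : Finset ℕ) := by
    intro a ha b hb hab
    rw [Finset.coe_range, Set.mem_Iio] at ha hb
    have := pd a (by omega)
    have := pd b (by omega)
    rw [hab] at *
    omega
  have cS : S.card = M + 1 := by
    rw [hS, Finset.card_image_of_injOn inj, Finset.card_range]
  have cS' : S.card ≤ Fintype.card V := Finset.card_le_univ S
  have e1 : ∑ v, (D u v : ℤ) = ∑ v ∈ S, (D u v : ℤ) + ∑ v ∈ Sᶜ, (D u v : ℤ) :=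
    (Finset.sum_add_sum_compl S _).symm
  have e2 : ∑ v ∈ S, (D u v : ℤ) = ∑ i ∈ Finset.range (M + 1), (i : ℤ) := by
    rw [hS, Finset.sum_image inj]
    apply Finset.sum_congr rfl
    intro i hi
    rw [pd i (by rw [Finset.mem_range] at hi; omega)]
  have e3 : ∑ v ∈ Sᶜ, (D u v : ℤ) ≤ ∑ v ∈ Sᶜ, (M : ℤ) := by
    apply Finset.sum_le_sum
    intro v _
    exact_mod_cast hx v (Finset.mem_univ v)
  rw [Finset.sum_const, Finset.card_compl, nsmul_eq_mul, Nat.cast_sub cS', cS] at e3
  have e4 : 2 * ∑ i ∈ Finset.range (M + 1), (i : ℤ) = M * (M + 1) := by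
    have := congrArg (Nat.cast : ℕ → ℤ) (two_sum_range M)
    push_cast at this
    exact this
  have e5 : (M : ℤ) + 1 ≤ Fintype.card V := by
    rw [cS] at cS'; exact_mod_cast cS'
  push_cast at e3
  rw [e1, e2]
  set n : ℤ := (Fintype.card V : ℤ) with hn
  nlinarith [mul_nonneg (show (0 : ℤ) ≤ n - M - 1 by linarith) (show (0 : ℤ) ≤ n - M by linarith)]

lemma wiener_conn (n : ℕ) : ∀ (V : Type u) [Fintype V] [DecidableEq V] (H : SimpleGraph V),
    H.Connected → Fintype.card V = n → 3 * ∑ u, ∑ v, (H.dist u v : ℤ) ≤ (n : ℤ) ^ 3 - n := by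
  induction n with
  | zero =>
    intro V _ _ H hH hc
    have := hH.nonempty
    have := Fintype.card_pos (α := V)
    omega
  | succ n ih =>
    intro V _ _ H hH hc
    rcases Nat.eq_zero_or_pos n with h0 | h0
    · subst h0
      have : Subsingleton V := Fintype.card_le_one_iff_subsingleton.1 (by omega)
      have : ∀ u v : V, (H.dist u v : ℤ) = 0 := fun u v => by
        rw [Subsingleton.elim u v]; simp
      simp [this]
    · have : Nontrivial V := Fintype.one_lt_card_iff_nontrivial.1 (by omega)
      obtain ⟨x, hx⟩ := hH.exists_connected_induce_compl_singleton_of_finite_nontrivial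
      classical
      have hcard : Fintype.card ({x}ᶜ : Set V) = n := by
        rw [Fintype.card_compl_set]
        simp [hc]
      have IH := ih ({x}ᶜ : Set V) (H.induce {x}ᶜ) hx hcard
      have hle : ∀ u v : ({x}ᶜ : Set V), (H.dist (u : V) (v : V) : ℤ) ≤
          (((H.induce {x}ᶜ).dist u v : ℕ) : ℤ) := by
        intro u v
        obtain ⟨p, hp⟩ := hx.exists_walk_length_eq_dist u v
        have : H.dist (u : V) (v : V) ≤ (p.map (SimpleGraph.Embedding.induce ({x}ᶜ : Set V)).toHom).length :=
          SimpleGraph.dist_le _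
        rw [SimpleGraph.Walk.length_map, hp] at this
        exact_mod_cast this
      have split : ∀ f : V → ℤ, ∑ v, f v = f x + ∑ v : ({x}ᶜ : Set V), f (v : V) := by
        intro f
        have e1 : ∑ v, f v = ∑ v ∈ {x}, f v + ∑ v ∈ {x}ᶜ, f v :=
          (Finset.sum_add_sum_compl {x} f).symm
        rw [e1, Finset.sum_singleton]
        congr 1
        have : ∑ v : ({x}ᶜ : Set V), f (v : V) = ∑ v ∈ (({x}ᶜ : Set V).toFinset), f v :=
          (Finset.sum_subtype _ (by simp) f).symm
        rw [this]
        apply Finset.sum_congr _ (fun _ _ => rfl)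
        ext v; simp
      have lev := (gmet_of_connected hH).level x
      have e2 : ∑ u, ∑ v, (H.dist u v : ℤ) = 2 * ∑ v, (H.dist x v : ℤ) +
          ∑ u : ({x}ᶜ : Set V), ∑ v : ({x}ᶜ : Set V), (H.dist (u : V) (v : V) : ℤ) := by
        rw [split (fun u => ∑ v, (H.dist u v : ℤ))]
        have : ∀ u : ({x}ᶜ : Set V), ∑ v, (H.dist (u : V) v : ℤ) = (H.dist x (u : V) : ℤ) +
            ∑ v : ({x}ᶜ : Set V), (H.dist (u : V) (v : V) : ℤ) := by
          intro u
          rw [split (fun v => (H.dist (u : V) v : ℤ))]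
          rw [SimpleGraph.dist_comm]
        rw [Finset.sum_congr rfl (fun u _ => this u), Finset.sum_add_distrib]
        have e3 := split (fun v => (H.dist x v : ℤ))
        beta_reduce at e3
        rw [SimpleGraph.dist_self] at e3
        push_cast at e3
        linarith
      have e4 : ∑ u : ({x}ᶜ : Set V), ∑ v : ({x}ᶜ : Set V), (H.dist (u : V) (v : V) : ℤ) ≤
          ∑ u : ({x}ᶜ : Set V), ∑ v : ({x}ᶜ : Set V), (((H.induce {x}ᶜ).dist u v : ℕ) : ℤ) :=
        Finset.sum_le_sum (fun u _ => Finset.sum_le_sum (fun v _ => hle u v))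
      rw [hc] at lev
      rw [e2]
      push_cast at lev ⊢
      nlinarith

lemma wiener_conn' {V : Type u} [Fintype V] {H : SimpleGraph V} (hH : H.Connected)
    (hc : Fintype.card V = 5) : ∑ u, ∑ v, (H.dist u v : ℤ) ≤ 40 := by
  classical
  have := wiener_conn 5 V H hH hc
  push_cast at this
  linarith

end H75.WI
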