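import Pool.Agent.H75.WI.Ineq

namespace H75.WI

open Finset

variable {V : Type*} [DecidableEq V]

lemma Dg_add (g a b : ℤ) (hab : a + b = g) :
    Dg g a + Dg g b + a * b ≤ g * g / 4 := by
  subst hab
  unfold Dg
  have h0 : a * b ≤ (a + b) * (a + b) / 4 := by
    rw [Int.le_ediv_iff_mul_le (by norm_num)]
    nlinarith [sq_nonneg (a - b)]
  rcases lt_trichotomy a b with h | h | h
  · rw [if_neg (by linarith), if_pos (by linarith)]
    have : b * (a + b - b) = a * b := by ring
    rw [this]; linarith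
  · subst h
    rw [if_pos (by linarith)]
    have : a * (a + a - a) = a * a := by ring
    rw [this]
    have e : (a + a) * (a + a) / 4 = a * a := by
      have : (a + a) * (a + a) = 4 * (a * a) := by ring
      omega
    rw [e]; linarith
  · rw [if_pos (by linarith), if_neg (by linarith)]
    have : a * (a + b - a) = a * b := by ring
    rw [this]; linarith

theorem partB (U : Finset V) (s d g : ℤ) (hs : 1 ≤ s) (hd : 2 * s ^ 2 ≤ d - 1)
    (hg : g ≤ 4 * s - 3) (hU : (U.card : ℤ) = g) (side : V → Prop) [DecidablePred side]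
    (jj t : V → ℕ) (root : V → V) (D : V → V → ℤ)
    (hroot : ∀ u ∈ U, ∀ v ∈ U, root u = root v → jj u = jj v ∧ (side u ↔ side v))
    (ht : ∀ u ∈ U, 1 ≤ t u ∧ t u ≤ jj u ∧ 2 * (jj u : ℤ) ≤ d)
    (h2 : ∀ u ∈ U, ∀ v ∈ U, (side u ↔ side v) → D u v ≤ t u + t v + |(jj u : ℤ) - jj v|)
    (h3 : ∀ u ∈ U, ∀ v ∈ U, u ≠ v → root u = root v → D u v ≤ t u + t v - 2)
    (h4 : ∀ u ∈ U, ∀ v ∈ U, ¬ (side u ↔ side v) → D u v ≤ t u + t v + d - jj u - jj v)
    (h5 : ∀ u ∈ U, ∀ k, 1 ≤ k → k ≤ t u → ∃ v ∈ U, root v = root u ∧ t v = k)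
    (hx : g = 5 → d ≤ 10 → ∀ u ∈ U, (U.filter (fun v => root v = root u)).card ≤ 4)
    (hself : ∀ u ∈ U, D u u = 0) :
    ∑ u ∈ U, 2 * ((t u : ℤ) * (d + 1) - jj u * (d - jj u)) + ∑ u ∈ U, ∑ v ∈ U, D u v ≤
      2 * g + 2 * (g * g) + 2 * ((d - 2) * (g * g / 4)) := by
  classical
  have hd3 : 3 ≤ d := by nlinarith
  have hdg : 2 * g ≤ d + 1 := by nlinarith [sq_nonneg (s - 2)]
  have hg0 : 0 ≤ g := by rw [← hU]; positivity
  set τ : V → ℕ := fun u => (U.filter (fun v => root v = root u)).sup t with hτ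
  have hτt : ∀ u ∈ U, t u ≤ τ u := fun u hu =>
    Finset.le_sup (f := t) (Finset.mem_filter.2 ⟨hu, rfl⟩)
  have hτeq : ∀ u v, root u = root v → τ u = τ v := fun u v huv => by
    simp only [hτ, huv]
  have hτatt : ∀ u ∈ U, ∃ v ∈ U, root v = root u ∧ τ u = t v := fun u hu => by
    obtain ⟨v, hv, h⟩ := Finset.exists_mem_eq_sup (U.filter (fun v => root v = root u))
      ⟨u, Finset.mem_filter.2 ⟨hu, rfl⟩⟩ t
    rw [Finset.mem_filter] at hv
    exact ⟨v, hv.1, hv.2, h⟩
  have hτj : ∀ u ∈ U, τ u ≤ jj u := fun u hu => by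
    obtain ⟨v, hv, hr, h⟩ := hτatt u hu
    rw [h, ← (hroot v hv u hu hr).1]
    exact (ht v hv).2.1
  have h5' : ∀ u ∈ U, ∀ k, 1 ≤ k → k ≤ τ u → ∃ v ∈ U, root v = root u ∧ t v = k := by
    intro u hu k hk1 hk2
    obtain ⟨v, hv, hr, h⟩ := hτatt u hu
    rw [h] at hk2
    obtain ⟨x, hx, hxr, hxt⟩ := h5 v hv k hk1 hk2
    exact ⟨x, hx, hxr.trans hr, hxt⟩
  have hmτ : ∀ u ∈ U, τ u ≤ (U.filter (fun v => root v = root u)).card := fun u hu => by
    refine (Y_ge (U.filter (fun v => root v = root u)) t (τ u) ?_ ?_).2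
    · intro v hv
      rw [Finset.mem_filter] at hv
      rw [← hτeq v u hv.2]
      exact hτt v hv.1
    · intro k hk1 hk2
      obtain ⟨v, hv, hr, h⟩ := h5' u hu k hk1 hk2
      exact ⟨v, Finset.mem_filter.2 ⟨hv, hr⟩, h⟩
  -- abbreviations
  set y : V → ℤ := fun u => (τ u : ℤ) - t u with hy
  set z : V → ℤ := fun u => (jj u : ℤ) - τ u with hz
  have hz0 : ∀ u ∈ U, 0 ≤ z u := fun u hu => by
    have := hτj u hu
    have : (τ u : ℤ) ≤ jj u := by exact_mod_cast this
    simp only [hz]; linarith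
  set M : V → V → ℤ := fun u v => if (side u ↔ side v) then w root τ u v + 2 else d with hM
  set κ : V → V → ℤ := fun u v => if root u = root v then 0 else if (side u ↔ side v) then 1
    else -1 with hκ
  set X : V → V → ℤ := fun u v => M u v - y u - y v + κ u v * (z u + z v) with hX
  have hDX : ∀ u ∈ U, ∀ v ∈ U, D u v ≤ if u = v then 0 else X u v := by
    intro u hu v hv
    split_ifs with huv
    · subst huv; rw [hself u hu]
    · by_cases hr : root u = root v
      · have e1 := h3 u hu v hv huv hr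
        have e2 := (hroot u hu v hv hr).2
        have e3 := hτeq u v hr
        simp only [hX, hM, hκ, hy, hz, w, if_pos hr, if_pos e2, e3]
        linarith
      · by_cases hsd : (side u ↔ side v)
        · have e1 := h2 u hu v hv hsd
          simp only [hX, hM, hκ, hy, hz, w, if_neg hr, if_pos hsd]
          have z1 := hz0 u hu
          have z2 := hz0 v hv
          simp only [hz] at z1 z2
          have e3 : |(jj u : ℤ) - jj v| ≤ 2 * max (τ u : ℤ) (τ v) - τ u - τ v
              + ((jj u : ℤ) - τ u) + ((jj v : ℤ) - τ v) := by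
            rcases le_total (τ u : ℤ) (τ v) with hh | hh
            · rw [max_eq_right hh, abs_le]; constructor <;> linarith
            · rw [max_eq_left hh, abs_le]; constructor <;> linarith
          linarith
        · have e1 := h4 u hu v hv hsd
          simp only [hX, hM, hκ, hy, hz, if_neg hr, if_neg hsd]
          linarith
  have hXuu : ∀ u ∈ U, X u u = 2 * (τ u : ℤ) - 2 - 2 * y u := fun u hu => by
    simp only [hX, hM, hκ, w, if_true]
    ring
  have step1 : ∑ u ∈ U, ∑ v ∈ U, D u v ≤ ∑ u ∈ U, (∑ v ∈ U, X u v - X u u) := by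
    apply Finset.sum_le_sum
    intro u hu
    calc ∑ v ∈ U, D u v ≤ ∑ v ∈ U, (if u = v then 0 else X u v) :=
          Finset.sum_le_sum (fun v hv => hDX u hu v hv)
      _ = ∑ v ∈ U, (X u v - if u = v then X u v else 0) := by
          apply Finset.sum_congr rfl
          intro v _
          split_ifs <;> ring
      _ = ∑ v ∈ U, X u v - X u u := by
          rw [Finset.sum_sub_distrib, Finset.sum_ite_eq, if_pos hu]
  -- the κ-part
  have hκsymm : ∀ u v, κ u v = κ v u := fun u v => by
    simp only [hκ]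
    by_cases hr : root u = root v
    · rw [if_pos hr, if_pos hr.symm]
    · have hr' : ¬ root v = root u := fun h => hr h.symm
      rw [if_neg hr, if_neg hr']
      by_cases hsd : (side u ↔ side v)
      · rw [if_pos hsd, if_pos hsd.symm]
      · have hsd' : ¬ (side v ↔ side u) := fun h => hsd h.symm
        rw [if_neg hsd, if_neg hsd']
  have step2 : ∑ u ∈ U, ∑ v ∈ U, κ u v * (z u + z v) = ∑ u ∈ U, 2 * z u * ∑ v ∈ U, κ u v := by
    have e1 : ∑ u ∈ U, ∑ v ∈ U, κ u v * (z u + z v) =
        ∑ u ∈ U, ∑ v ∈ U, κ u v * z u + ∑ u ∈ U, ∑ v ∈ U, κ u v * z v := by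
      rw [← Finset.sum_add_distrib]
      apply Finset.sum_congr rfl; intro u _
      rw [← Finset.sum_add_distrib]
      apply Finset.sum_congr rfl; intro v _
      ring
    have e2 : ∑ u ∈ U, ∑ v ∈ U, κ u v * z v = ∑ u ∈ U, ∑ v ∈ U, κ u v * z u := by
      rw [Finset.sum_comm]
      apply Finset.sum_congr rfl; intro u _
      apply Finset.sum_congr rfl; intro v _
      rw [hκsymm v u]
    rw [e1, e2, ← Finset.sum_add_distrib]
    apply Finset.sum_congr rfl; intro u _
    rw [← Finset.sum_mul]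
    ring
  have hκle : ∀ u ∈ U, ∑ v ∈ U, κ u v ≤ g - (U.filter (fun v => root v = root u)).card := by
    intro u hu
    have e1 : ∑ v ∈ U, κ u v ≤ ∑ v ∈ U, (if root v = root u then (0 : ℤ) else 1) := by
      apply Finset.sum_le_sum
      intro v _
      simp only [hκ]
      by_cases hr : root u = root v
      · rw [if_pos hr, if_pos hr.symm]
      · have hr' : ¬ root v = root u := fun h => hr h.symm
        rw [if_neg hr, if_neg hr']
        split_ifs <;> norm_num
    have e2 : ∑ v ∈ U, (if root v = root u then (0 : ℤ) else 1) =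
        g - (U.filter (fun v => root v = root u)).card := by
      have : ∑ v ∈ U, (if root v = root u then (0 : ℤ) else 1) =
          ∑ v ∈ U, ((1 : ℤ) - if root v = root u then 1 else 0) := by
        apply Finset.sum_congr rfl; intro v _
        split_ifs <;> ring
      rw [this, Finset.sum_sub_distrib, Finset.sum_boole]
      simp [hU]
    linarith
  have step3 : ∑ u ∈ U, (2 * ((t u : ℤ) * (d + 1) - jj u * (d - jj u)) + 2 * z u * ∑ v ∈ U, κ u v)
      ≤ ∑ u ∈ U, 2 * ((τ u : ℤ) * (τ u + 1) - y u * (d + 1)) := by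
    apply Finset.sum_le_sum
    intro u hu
    have k1 := hκle u hu
    have z1 := hz0 u hu
    have k2 : z u * ∑ v ∈ U, κ u v ≤ z u * (g - (U.filter (fun v => root v = root u)).card) :=
      mul_le_mul_of_nonneg_left k1 z1
    have k3 : (τ u : ℤ) ≤ (U.filter (fun v => root v = root u)).card := by
      exact_mod_cast hmτ u hu
    have k4 := (ht u hu).2.2
    have k5 : g ≤ d - jj u := by
      have : 2 * g ≤ 2 * (d - jj u) + 1 := by linarith
      omega
    have k6 : z u * (g - (U.filter (fun v => root v = root u)).card) ≤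
        z u * (d - τ u - jj u) := by
      apply mul_le_mul_of_nonneg_left _ z1
      linarith
    have k7 : (t u : ℤ) * (d + 1) - jj u * (d - jj u) =
        (τ u : ℤ) * (τ u + 1) - y u * (d + 1) - z u * (d - τ u - jj u) := by
      simp only [hy, hz]; ring
    rw [k7]
    linarith
  -- assembling
  have step4 : ∑ u ∈ U, (∑ v ∈ U, X u v - X u u) = ∑ u ∈ U, ∑ v ∈ U, M u v
      - 2 * g * ∑ u ∈ U, y u + ∑ u ∈ U, ∑ v ∈ U, κ u v * (z u + z v)
      - ∑ u ∈ U, (2 * (τ u : ℤ) - 2 - 2 * y u) := by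
    rw [Finset.sum_sub_distrib, Finset.sum_congr rfl hXuu]
    congr 1
    have e1 : ∀ u ∈ U, ∑ v ∈ U, X u v = ∑ v ∈ U, M u v - g * y u - ∑ v ∈ U, y v
        + ∑ v ∈ U, κ u v * (z u + z v) := by
      intro u _
      simp only [hX]
      rw [Finset.sum_add_distrib, Finset.sum_sub_distrib, Finset.sum_sub_distrib,
        Finset.sum_const, nsmul_eq_mul, hU]
    rw [Finset.sum_congr rfl e1, Finset.sum_add_distrib, Finset.sum_sub_distrib,
      Finset.sum_sub_distrib, ← Finset.mul_sum, Finset.sum_const, nsmul_eq_mul, hU]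
    ring
  -- splitting M
  set L1 := U.filter side with hL1
  set L2 := U.filter (fun v => ¬ side v) with hL2
  have hcard : (L1.card : ℤ) + L2.card = g := by
    rw [← hU]
    have := Finset.card_filter_add_card_filter_not (s := U) side
    rw [← hL1, ← hL2] at this
    exact_mod_cast this
  have hM1 : ∑ u ∈ U, ∑ v ∈ U, M u v = (∑ u ∈ L1, ∑ v ∈ L1, w root τ u v)
      + (∑ u ∈ L2, ∑ v ∈ L2, w root τ u v) + 2 * ((L1.card : ℤ) * L1.card)
      + 2 * ((L2.card : ℤ) * L2.card) + 2 * (d * (L1.card * L2.card)) := by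
    have e0 : ∀ f : V → ℤ, ∑ u ∈ U, f u = ∑ u ∈ L1, f u + ∑ u ∈ L2, f u := fun f =>
      (Finset.sum_filter_add_sum_filter_not U side f).symm
    have m1 : ∀ u ∈ L1, ∑ v ∈ U, M u v = (∑ v ∈ L1, w root τ u v) + 2 * L1.card
        + d * L2.card := by
      intro u hu
      rw [hL1, Finset.mem_filter] at hu
      rw [e0]
      have a1 : ∑ v ∈ L1, M u v = ∑ v ∈ L1, (w root τ u v + 2) := by
        apply Finset.sum_congr rfl
        intro v hv
        rw [hL1, Finset.mem_filter] at hv
        simp only [hM]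
        rw [if_pos (iff_of_true hu.2 hv.2)]
      have a2 : ∑ v ∈ L2, M u v = ∑ v ∈ L2, d := by
        apply Finset.sum_congr rfl
        intro v hv
        rw [hL2, Finset.mem_filter] at hv
        simp only [hM]
        rw [if_neg (fun h => hv.2 (h.1 hu.2))]
      rw [a1, a2, Finset.sum_add_distrib, Finset.sum_const, Finset.sum_const, nsmul_eq_mul,
        nsmul_eq_mul]
      ring
    have m2 : ∀ u ∈ L2, ∑ v ∈ U, M u v = (∑ v ∈ L2, w root τ u v) + 2 * L2.card
        + d * L1.card := by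
      intro u hu
      rw [hL2, Finset.mem_filter] at hu
      rw [e0]
      have a1 : ∑ v ∈ L2, M u v = ∑ v ∈ L2, (w root τ u v + 2) := by
        apply Finset.sum_congr rfl
        intro v hv
        rw [hL2, Finset.mem_filter] at hv
        simp only [hM]
        rw [if_pos (iff_of_false hu.2 hv.2)]
      have a2 : ∑ v ∈ L1, M u v = ∑ v ∈ L1, d := by
        apply Finset.sum_congr rfl
        intro v hv
        rw [hL1, Finset.mem_filter] at hv
        simp only [hM]
        rw [if_neg (fun h => hu.2 (h.2 hv.2))]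
      rw [a1, a2, Finset.sum_add_distrib, Finset.sum_const, Finset.sum_const, nsmul_eq_mul,
        nsmul_eq_mul]
      ring
    rw [e0, Finset.sum_congr rfl m1, Finset.sum_congr rfl m2]
    simp only [Finset.sum_add_distrib, Finset.sum_const, nsmul_eq_mul]
    ring
  have hvw : ∑ u ∈ U, 2 * ((τ u : ℤ) * (τ u + 1) - y u * (d + 1)) - 2 * g * ∑ u ∈ U, y u
      - ∑ u ∈ U, (2 * (τ u : ℤ) - 2 - 2 * y u) =
      ∑ u ∈ L1, vw d g t τ u + ∑ u ∈ L2, vw d g t τ u + 2 * g := by
    have e0 : ∑ u ∈ U, vw d g t τ u = ∑ u ∈ L1, vw d g t τ u + ∑ u ∈ L2, vw d g t τ u :=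
      (Finset.sum_filter_add_sum_filter_not U side _).symm
    rw [← e0, Finset.mul_sum, ← Finset.sum_sub_distrib, ← Finset.sum_sub_distrib]
    have e1 : ∀ u ∈ U, 2 * ((τ u : ℤ) * (τ u + 1) - y u * (d + 1)) - 2 * g * y u
      - (2 * (τ u : ℤ) - 2 - 2 * y u) = vw d g t τ u + 2 := by
      intro u _
      simp only [vw, hy]; ring
    rw [Finset.sum_congr rfl e1, Finset.sum_add_distrib, Finset.sum_const, nsmul_eq_mul, hU]
    ring
  -- the two sides
  have side_le : ∀ L : Finset V, L ⊆ U → (∀ u ∈ L, ∀ v ∈ U, root v = root u → v ∈ L) →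
      Kd d g L root t τ ≤ 2 * (d - 2) * Dg g L.card := by
    intro L hL hcl
    have hLc : (L.card : ℤ) ≤ g := by
      rw [← hU]; exact_mod_cast Finset.card_le_card hL
    refine K_le s d g hs hd hg t τ root L.card L rfl hLc ?_ ?_ ?_ ?_
    · intro u hu
      have huU := hL hu
      refine ⟨(ht u huU).1, hτt u huU, ?_⟩
      have : (τ u : ℤ) ≤ jj u := by exact_mod_cast hτj u huU
      have := (ht u huU).2.2
      linarith
    · intro u _ v _ hr
      exact hτeq u v hr
    · intro u hu k hk1 hk2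
      obtain ⟨v, hv, hr, h⟩ := h5' u (hL hu) k hk1 hk2
      exact ⟨v, hcl u hu v hv hr, hr, h⟩
    · intro g5 d10 u hu
      refine le_trans (Finset.card_le_card ?_) (hx g5 d10 u (hL hu))
      exact Finset.filter_subset_filter _ hL
  have K1 := side_le L1 (Finset.filter_subset _ _) (fun u hu v hv hr => by
    rw [hL1, Finset.mem_filter] at hu ⊢
    exact ⟨hv, ((hroot v hv u hu.1 hr).2).2 hu.2⟩)
  have K2 := side_le L2 (Finset.filter_subset _ _) (fun u hu v hv hr => by
    rw [hL2, Finset.mem_filter] at hu ⊢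
    exact ⟨hv, fun h => hu.2 (((hroot v hv u hu.1 hr).2).1 h)⟩)
  have hDg := Dg_add g L1.card L2.card hcard
  have hDg2 : 2 * (d - 2) * (Dg g L1.card + Dg g L2.card + L1.card * L2.card) ≤
      2 * (d - 2) * (g * g / 4) := mul_le_mul_of_nonneg_left hDg (by linarith)
  unfold Kd at K1 K2
  rw [Finset.sum_add_distrib] at step3
  have hgg : g * g = (L1.card : ℤ) * L1.card + 2 * (L1.card * L2.card) + L2.card * L2.card := by
    rw [← hcard]; ring
  rw [step4, hM1, step2] at step1
  have final1 : 2 * (d - 2) * (Dg g L1.card + Dg g L2.card + (L1.card : ℤ) * L2.card) =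
    2 * (d - 2) * Dg g L1.card + 2 * (d - 2) * Dg g L2.card
      + 2 * (d * ((L1.card : ℤ) * L2.card)) - 4 * ((L1.card : ℤ) * L2.card) := by ring
  have final2 : 2 * (d - 2) * (g * g / 4) = 2 * ((d - 2) * (g * g / 4)) := by ring
  linarith

end H75.WI
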