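import Pool.Agent.H75.WI.Tree
import Pool.Agent.H75.WI.Ineq2

namespace H75.WI

open Finset

variable {V : Type*} [Fintype V] [DecidableEq V]

lemma two_sum_abs (J : ℕ) : ∀ d, J ≤ d →
    2 * ∑ i ∈ Finset.range (d + 1), |(i : ℤ) - J| = d * (d + 1) - 2 * (J * (d - J)) := by
  intro d hd
  induction d, hd using Nat.le_induction with
  | base =>
    have : ∀ n : ℕ, n ≤ J + 1 → 2 * ∑ i ∈ Finset.range n, |(i : ℤ) - J| = n * (2 * J + 1 - n) := by
      intro n
      induction n with
      | zero => simp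
      | succ n ih =>
        intro hn
        rw [Finset.sum_range_succ, mul_add, ih (by omega)]
        have : (n : ℤ) ≤ J := by exact_mod_cast (by omega : n ≤ J)
        rw [abs_of_nonpos (by linarith)]
        push_cast
        ring
    rw [this (J + 1) le_rfl]
    push_cast
    ring
  | succ d hd ih =>
    rw [Finset.sum_range_succ, mul_add, ih]
    have : (J : ℤ) ≤ d := by exact_mod_cast hd
    rw [abs_of_nonneg (by push_cast; linarith)]
    push_cast
    ring

/-- the inequality for the off-path vertices -/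
def IneqU (D : V → V → ℕ) (P : ℕ → V) (d : ℕ) : Prop :=
  2 * ∑ u ∈ offP P d, ∑ i ∈ Finset.range (d + 1), (D u (P i) : ℤ) +
    ∑ u ∈ offP P d, ∑ v ∈ offP P d, (D u v : ℤ) ≤
  ((offP P d).card : ℤ) * (d * (d + 1)) + (2 * (offP P d).card +
    2 * ((offP P d).card * (offP P d).card) +
    2 * (((d : ℤ) - 2) * (((offP P d).card : ℤ) * (offP P d).card / 4)))

theorem GMet.gen {D : V → V → ℕ} (hD : GMet D) (P : ℕ → V) (d c s : ℕ)
    (hP : ∀ i j, i ≤ j → j ≤ d → D (P i) (P j) = j - i)
    (hc : 2 * c ≤ d) (hc' : d ≤ 2 * c + 1) (hs : 1 ≤ s) (hsd : 2 * s ^ 2 + 1 ≤ d)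
    (hg : (offP P d).card + 3 ≤ 4 * s)
    (hcen : ∀ u ∈ offP P d, D u (P c) ≤ c ∨ D u (P (d - c)) ≤ c)
    (hx : (offP P d).card = 5 → d ≤ 10 → ∀ r ∈ offP P d, ¬ ∀ u ∈ offP P d,
      Relation.ReflTransGen (stp D (offP P d)) u r) : IneqU D P d := by
  classical
  have hP' : ∀ i j, i ≤ d → j ≤ d → D (P i) (P j) = (i - j) + (j - i) := by
    intro i j hi hj
    rcases le_total i j with h | h
    · rw [hP i j h hj]; omega
    · rw [hD.symm, hP j i h hi]; omega
  obtain ⟨J, t, root, H⟩ := hD.tree P d c hP hc hc' hcen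
  set U := offP P d with hU
  set jj : V → ℕ := fun u => if J u ≤ c then J u else d - J u with hjj
  have hjv : ∀ u ∈ U, (J u ≤ c ∧ jj u = J u) ∨ (¬ J u ≤ c ∧ jj u = d - J u) := by
    intro u _
    simp only [hjj]
    by_cases h : J u ≤ c
    · left; exact ⟨h, by rw [if_pos h]⟩
    · right; exact ⟨h, by rw [if_neg h]⟩
  have hpair : ∀ u ∈ U, ∀ v ∈ U, D u v ≤ t u + t v + ((J u - J v) + (J v - J u)) := by
    intro u hu v hv
    obtain ⟨-, b2, b3, -⟩ := H u hu
    obtain ⟨-, b2', b3', -⟩ := H v hv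
    have e1 := hD.tri u (P (J u)) v
    have e2 := hD.tri (P (J u)) (P (J v)) v
    rw [hD.symm (P (J v)) v, hP' _ _ b2 b2'] at e2
    omega
  have key := partB U (s : ℤ) (d : ℤ) (U.card : ℤ) (by exact_mod_cast hs)
    (by have : (2 * (s : ℤ) ^ 2 + 1 ≤ d) := by exact_mod_cast hsd
        linarith)
    (by have : ((U.card : ℤ) + 3 ≤ 4 * s) := by exact_mod_cast hg
        linarith)
    rfl (fun u => J u ≤ c) jj t root (fun u v => (D u v : ℤ))
    (by
      intro u hu v hv hr
      have e1 := (H u hu).2.2.2.2.2.2.2.2.1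
      have e2 := (H v hv).2.2.2.2.2.2.2.2.1
      rw [hr, e2] at e1
      simp only [hjj, e1]
      exact ⟨trivial, trivial⟩)
    (by
      intro u hu
      obtain ⟨b1, b2, b3, b4, b5, -⟩ := H u hu
      rcases hjv u hu with ⟨h1, h2⟩ | ⟨h1, h2⟩
      · rw [h2]
        refine ⟨b1, b4, ?_⟩
        exact_mod_cast (by omega : 2 * J u ≤ d)
      · rw [h2]
        refine ⟨b1, by omega, ?_⟩
        exact_mod_cast (by omega : 2 * (d - J u) ≤ d))
    (by
      intro u hu v hv hsd
      have h := hpair u hu v hv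
      obtain ⟨-, b2, -⟩ := H u hu
      obtain ⟨-, b2', -⟩ := H v hv
      have hI : (D u v : ℤ) ≤ t u + t v + |(J u : ℤ) - J v| := by
        rcases le_total (J u) (J v) with hh | hh
        · rw [abs_of_nonpos (by have : (J u : ℤ) ≤ J v := by exact_mod_cast hh
                                linarith)]
          omega
        · rw [abs_of_nonneg (by have : (J v : ℤ) ≤ J u := by exact_mod_cast hh
                                linarith)]
          omega
      rcases hjv u hu with ⟨h1, h2⟩ | ⟨h1, h2⟩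
      · rcases hjv v hv with ⟨h1', h2'⟩ | ⟨h1', h2'⟩
        · rw [h2, h2']; exact hI
        · exact absurd (hsd.1 h1) h1'
      · rcases hjv v hv with ⟨h1', h2'⟩ | ⟨h1', h2'⟩
        · exact absurd (hsd.2 h1') h1
        · rw [h2, h2']
          rw [Nat.cast_sub b2, Nat.cast_sub b2']
          have : (d : ℤ) - J u - (d - J v) = -((J u : ℤ) - J v) := by ring
          rw [this, abs_neg]
          exact hI)
    (by
      intro u hu v hv _ hr
      have e1 := (H u hu).2.2.2.2.2.2.1
      have e2 := (H v hv).2.2.2.2.2.2.1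
      have e3 := hD.tri u (root u) v
      rw [← hr, hD.symm v] at e2
      omega)
    (by
      intro u hu v hv hsd
      have h := hpair u hu v hv
      obtain ⟨-, b2, -⟩ := H u hu
      obtain ⟨-, b2', -⟩ := H v hv
      rcases hjv u hu with ⟨h1, h2⟩ | ⟨h1, h2⟩
      · rcases hjv v hv with ⟨h1', h2'⟩ | ⟨h1', h2'⟩
        · exact absurd (iff_of_true h1 h1') hsd
        · rw [h2, h2', Nat.cast_sub b2']
          omega
      · rcases hjv v hv with ⟨h1', h2'⟩ | ⟨h1', h2'⟩
        · rw [h2, h2', Nat.cast_sub b2]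
          omega
        · exact absurd (iff_of_false h1 h1') hsd)
    (fun u hu => (H u hu).2.2.2.2.2.2.2.2.2)
    (by
      intro g5 d10 u hu
      have g5' : U.card = 5 := by exact_mod_cast g5
      have d10' : d ≤ 10 := by exact_mod_cast d10
      by_contra hcon
      push Not at hcon
      have hsub : U.filter (fun v => root v = root u) = U := by
        apply Finset.eq_of_subset_of_card_le (Finset.filter_subset _ _)
        omega
      refine hx g5' d10' (root u) (H u hu).2.2.2.2.2.1 ?_
      intro v hv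
      rw [← hsub, Finset.mem_filter] at hv
      rw [← hv.2]
      exact (H v hv.1).2.2.2.2.2.2.2.1)
    (by intro u _; simp [hD.self])
  -- the sums to the path
  have hS : ∀ u ∈ U, 2 * ∑ i ∈ Finset.range (d + 1), (D u (P i) : ℤ) ≤
      (d : ℤ) * (d + 1) + 2 * ((t u : ℤ) * (d + 1) - jj u * (d - jj u)) := by
    intro u hu
    obtain ⟨b1, b2, b3, -⟩ := H u hu
    have e1 : ∑ i ∈ Finset.range (d + 1), (D u (P i) : ℤ) ≤
        ∑ i ∈ Finset.range (d + 1), ((t u : ℤ) + |(i : ℤ) - J u|) := by
      apply Finset.sum_le_sum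
      intro i hi
      rw [Finset.mem_range] at hi
      have e2 := hD.tri u (P (J u)) (P i)
      rw [hP' _ _ b2 (by omega)] at e2
      rcases le_total (J u) i with hh | hh
      · rw [abs_of_nonneg (by have : (J u : ℤ) ≤ i := by exact_mod_cast hh
                              linarith)]
        omega
      · rw [abs_of_nonpos (by have : (i : ℤ) ≤ J u := by exact_mod_cast hh
                              linarith)]
        omega
    rw [Finset.sum_add_distrib, Finset.sum_const, Finset.card_range, nsmul_eq_mul] at e1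
    have e3 := two_sum_abs (J u) d b2
    have e4 : (jj u : ℤ) * (d - jj u) = J u * (d - J u) := by
      rcases hjv u hu with ⟨h1, h2⟩ | ⟨h1, h2⟩
      · rw [h2]
      · rw [h2, Nat.cast_sub b2]; ring
    rw [e4]
    push_cast at e1
    linarith
  have hS2 : 2 * ∑ u ∈ U, ∑ i ∈ Finset.range (d + 1), (D u (P i) : ℤ) ≤
      (U.card : ℤ) * (d * (d + 1)) +
        ∑ u ∈ U, 2 * ((t u : ℤ) * (d + 1) - jj u * (d - jj u)) := by
    rw [Finset.mul_sum]
    refine le_trans (Finset.sum_le_sum hS) ?_
    rw [Finset.sum_add_distrib, Finset.sum_const, nsmul_eq_mul]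
  unfold IneqU
  rw [← hU]
  linarith

end H75.WI
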