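import Pool.Agent.H75.WI.Num2

namespace H75.WI

open Finset

variable {V : Type*} [DecidableEq V]

lemma two_sum_Icc (c : ℤ) (n : ℕ) : 2 * ∑ k ∈ Finset.Icc 1 n, (c - (k : ℤ)) =
    2 * c * n - n * (n + 1) := by
  induction n with
  | zero => simp
  | succ n ih =>
    rw [Finset.sum_Icc_succ_top (by omega), mul_add, ih]
    push_cast
    ring

lemma Y_ge (B : Finset V) (t : V → ℕ) (τ : ℕ) (h : ∀ u ∈ B, t u ≤ τ)
    (hk : ∀ k, 1 ≤ k → k ≤ τ → ∃ v ∈ B, t v = k) :
    (τ : ℤ) * (τ - 1) ≤ 2 * ∑ u ∈ B, ((τ : ℤ) - t u) ∧ τ ≤ B.card := by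
  classical
  have hnn : ∀ u ∈ B, (0 : ℤ) ≤ (τ : ℤ) - t u := fun u hu => by
    have := h u hu
    have : (t u : ℤ) ≤ τ := by exact_mod_cast this
    linarith
  rcases Nat.eq_zero_or_pos τ with h0 | h0
  · subst h0
    have := Finset.sum_nonneg hnn
    constructor
    · push_cast at this ⊢
      linarith
    · exact Nat.zero_le _
  · obtain ⟨v0, hv0, h20⟩ := hk 1 le_rfl h0
    have : ∀ k, ∃ v, k ∈ Finset.Icc 1 τ → v ∈ B ∧ t v = k := by
      intro k
      by_cases hk' : k ∈ Finset.Icc 1 τ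
      · rw [Finset.mem_Icc] at hk'
        obtain ⟨v, hv, h2⟩ := hk k hk'.1 hk'.2
        exact ⟨v, fun _ => ⟨hv, h2⟩⟩
      · exact ⟨v0, fun hh => absurd hh hk'⟩
    choose f hf using this
    have hinj : Set.InjOn f (Finset.Icc 1 τ : Finset ℕ) := by
      intro x hx y hy hxy
      have h1 := (hf x hx).2
      have h2 := (hf y hy).2
      rw [hxy] at h1
      omega
    have hsub : (Finset.Icc 1 τ).image f ⊆ B := by
      intro v hv
      rw [Finset.mem_image] at hv
      obtain ⟨k, hk', rfl⟩ := hv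
      exact (hf k hk').1
    constructor
    · have h1 : ∑ u ∈ (Finset.Icc 1 τ).image f, ((τ : ℤ) - t u) ≤ ∑ u ∈ B, ((τ : ℤ) - t u) := by
        apply Finset.sum_le_sum_of_subset_of_nonneg hsub
        intro u hu _
        exact hnn u hu
      rw [Finset.sum_image hinj] at h1
      have h2 : ∑ k ∈ Finset.Icc 1 τ, ((τ : ℤ) - t (f k)) =
          ∑ k ∈ Finset.Icc 1 τ, ((τ : ℤ) - (k : ℤ)) := by
        apply Finset.sum_congr rfl
        intro k hk'
        rw [(hf k hk').2]
      have h3 := two_sum_Icc (τ : ℤ) τ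
      rw [h2] at h1
      nlinarith
    · have := Finset.card_le_card hsub
      rw [Finset.card_image_of_injOn hinj] at this
      simpa using this

/-- pair weight -/
def w (root : V → V) (τ : V → ℕ) (u v : V) : ℤ :=
  if root u = root v then 2 * (τ u : ℤ) - 4 else 2 * max (τ u : ℤ) (τ v) - 2

/-- vertex weight -/
def vw (d g : ℤ) (t τ : V → ℕ) (u : V) : ℤ :=
  2 * ((τ u : ℤ) * (τ u + 1) - 2 - ((τ u : ℤ) - t u) * (d + g)) - (2 * (τ u : ℤ) - 4)

def Kd (d g : ℤ) (L : Finset V) (root : V → V) (t τ : V → ℕ) : ℤ :=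
  ∑ u ∈ L, vw d g t τ u + ∑ u ∈ L, ∑ v ∈ L, w root τ u v

lemma K_le (s d g : ℤ) (hs : 1 ≤ s) (hd : 2 * s ^ 2 ≤ d - 1) (hg : g ≤ 4 * s - 3)
    (t τ : V → ℕ) (root : V → V) : ∀ (n : ℕ) (L : Finset V), L.card = n → (L.card : ℤ) ≤ g →
    (∀ u ∈ L, 1 ≤ t u ∧ t u ≤ τ u ∧ 2 * (τ u : ℤ) ≤ d) →
    (∀ u ∈ L, ∀ v ∈ L, root u = root v → τ u = τ v) →
    (∀ u ∈ L, ∀ k, 1 ≤ k → k ≤ τ u → ∃ v ∈ L, root v = root u ∧ t v = k) →
    (g = 5 → d ≤ 10 → ∀ u ∈ L, (L.filter (fun v => root v = root u)).card ≤ 4) →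
    Kd d g L root t τ ≤ 2 * (d - 2) * Dg g L.card := by
  intro n
  induction n using Nat.strong_induction_on with
  | _ n ih =>
  intro L hLn hLg h1 h2 h3 h4
  have hd3 : 3 ≤ d := by nlinarith
  rcases L.eq_empty_or_nonempty with hL | hL
  · subst hL
    simp only [Kd, Finset.sum_empty, add_zero, Finset.card_empty, Nat.cast_zero]
    exact mul_nonneg (by linarith) (Dg_nonneg _ _)
  · obtain ⟨u0, hu0, hmax⟩ := Finset.exists_max_image L τ hL
    set B := L.filter (fun v => root v = root u0) with hB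
    set R := L.filter (fun v => ¬ root v = root u0) with hR
    have hBL : ∀ u ∈ B, u ∈ L ∧ root u = root u0 := fun u hu => by
      rw [hB, Finset.mem_filter] at hu; exact hu
    have hRL : ∀ u ∈ R, u ∈ L ∧ ¬ root u = root u0 := fun u hu => by
      rw [hR, Finset.mem_filter] at hu; exact hu
    have hcard : B.card + R.card = L.card := by
      rw [hB, hR]; exact Finset.card_filter_add_card_filter_not _
    have hu0B : u0 ∈ B := by rw [hB, Finset.mem_filter]; exact ⟨hu0, rfl⟩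
    have hBpos : 0 < B.card := Finset.card_pos.2 ⟨u0, hu0B⟩
    have hτB : ∀ u ∈ B, τ u = τ u0 := fun u hu => h2 u (hBL u hu).1 u0 hu0 (hBL u hu).2
    set T := τ u0 with hT
    -- induction hypothesis
    have IH := ih R.card (by omega) R rfl (by
        have : (R.card : ℤ) ≤ L.card := by exact_mod_cast (by omega : R.card ≤ L.card)
        linarith)
      (fun u hu => h1 u (hRL u hu).1)
      (fun u hu v hv => h2 u (hRL u hu).1 v (hRL v hv).1)
      (fun u hu k hk1 hk2 => by
        obtain ⟨v, hv, hv1, hv2⟩ := h3 u (hRL u hu).1 k hk1 hk2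
        refine ⟨v, ?_, hv1, hv2⟩
        rw [hR, Finset.mem_filter]
        exact ⟨hv, by rw [hv1]; exact (hRL u hu).2⟩)
      (fun g5 d10 u hu => by
        refine le_trans (Finset.card_le_card ?_) (h4 g5 d10 u (hRL u hu).1)
        exact Finset.filter_subset_filter _ (Finset.filter_subset _ _))
    -- Y bound
    have hY := Y_ge B t T (fun u hu => by
        have := (h1 u (hBL u hu).1).2.1
        rw [hτB u hu] at this
        exact this)
      (fun k hk1 hk2 => by
        obtain ⟨v, hv, hv1, hv2⟩ := h3 u0 hu0 k hk1 hk2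
        exact ⟨v, by rw [hB, Finset.mem_filter]; exact ⟨hv, hv1⟩, hv2⟩)
    obtain ⟨hY1, hY2⟩ := hY
    -- decomposition of the sums
    have d1 : ∑ u ∈ L, vw d g t τ u = ∑ u ∈ B, vw d g t τ u + ∑ u ∈ R, vw d g t τ u :=
      (Finset.sum_filter_add_sum_filter_not L _ _).symm
    have d2 : ∀ u, ∑ v ∈ L, w root τ u v = ∑ v ∈ B, w root τ u v + ∑ v ∈ R, w root τ u v :=
      fun u => (Finset.sum_filter_add_sum_filter_not L _ _).symm
    have d3 : ∑ u ∈ L, ∑ v ∈ L, w root τ u v =
        (∑ u ∈ B, ∑ v ∈ B, w root τ u v + ∑ u ∈ B, ∑ v ∈ R, w root τ u v) +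
        (∑ u ∈ R, ∑ v ∈ B, w root τ u v + ∑ u ∈ R, ∑ v ∈ R, w root τ u v) := by
      rw [← Finset.sum_add_distrib, ← Finset.sum_add_distrib]
      rw [← Finset.sum_filter_add_sum_filter_not L (fun v => root v = root u0)]
      congr 1
      · exact Finset.sum_congr rfl (fun u _ => d2 u)
      · exact Finset.sum_congr rfl (fun u _ => d2 u)
    have bb : ∑ u ∈ B, ∑ v ∈ B, w root τ u v = (B.card : ℤ) * (B.card * (2 * (T : ℤ) - 4)) := by
      rw [Finset.sum_congr rfl (fun u hu => Finset.sum_congr rfl (fun v hv => by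
        show w root τ u v = 2 * (T : ℤ) - 4
        unfold w
        rw [if_pos ((hBL u hu).2.trans (hBL v hv).2.symm), hτB u hu]))]
      simp only [Finset.sum_const, nsmul_eq_mul]
    have br : ∑ u ∈ B, ∑ v ∈ R, w root τ u v = (B.card : ℤ) * (R.card * (2 * (T : ℤ) - 2)) := by
      rw [Finset.sum_congr rfl (fun u hu => Finset.sum_congr rfl (fun v hv => by
        show w root τ u v = 2 * (T : ℤ) - 2
        unfold w
        rw [if_neg (fun hh => (hRL v hv).2 (hh.symm.trans (hBL u hu).2)), hτB u hu]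
        have := hmax v (hRL v hv).1
        have : (τ v : ℤ) ≤ T := by exact_mod_cast this
        rw [max_eq_left this]))]
      simp only [Finset.sum_const, nsmul_eq_mul]
    have rb : ∑ u ∈ R, ∑ v ∈ B, w root τ u v = (R.card : ℤ) * (B.card * (2 * (T : ℤ) - 2)) := by
      rw [Finset.sum_congr rfl (fun u hu => Finset.sum_congr rfl (fun v hv => by
        show w root τ u v = 2 * (T : ℤ) - 2
        unfold w
        rw [if_neg (fun hh => (hRL u hu).2 (hh.trans (hBL v hv).2)), hτB v hv]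
        have := hmax u (hRL u hu).1
        have : (τ u : ℤ) ≤ T := by exact_mod_cast this
        rw [max_eq_right this]))]
      simp only [Finset.sum_const, nsmul_eq_mul]
    have vb : ∑ u ∈ B, vw d g t τ u = (B.card : ℤ) * (2 * ((T : ℤ) * (T + 1) - 2) - (2 * (T : ℤ) - 4))
        - 2 * (d + g) * ∑ u ∈ B, ((T : ℤ) - t u) := by
      have : ∀ u ∈ B, vw d g t τ u = (2 * ((T : ℤ) * (T + 1) - 2) - (2 * (T : ℤ) - 4))
          - 2 * (d + g) * ((T : ℤ) - t u) := fun u hu => by
        unfold vw; rw [hτB u hu]; ring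
      rw [Finset.sum_congr rfl this, Finset.sum_sub_distrib, ← Finset.mul_sum]
      simp only [Finset.sum_const, nsmul_eq_mul]
    have hm4 : ¬ (g = 5 ∧ (B.card : ℤ) = 5 ∧ d ≤ 10) := by
      rintro ⟨g5, b5, d10⟩
      have := h4 g5 d10 u0 hu0
      rw [← hB] at this
      have : (B.card : ℤ) ≤ 4 := by exact_mod_cast this
      linarith
    have T1 : 1 ≤ T := le_trans (h1 u0 hu0).1 (h1 u0 hu0).2.1
    have Td := (h1 u0 hu0).2.2
    have hN := N s d g L.card B.card T hs hd hg (by exact_mod_cast T1) (by exact_mod_cast hY2)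
      (by exact_mod_cast (by omega : B.card ≤ L.card)) hLg Td hm4
    have hLR : ((L.card : ℤ) - B.card) = R.card := by
      have : (B.card : ℤ) + R.card = L.card := by exact_mod_cast hcard
      linarith
    rw [hLR] at hN
    have hLc : (L.card : ℤ) = B.card + R.card := by linarith
    have hK : Kd d g L root t τ = Kd d g R root t τ +
        ((B.card : ℤ) * (2 * ((T : ℤ) * (T + 1) - 2) - (2 * (T : ℤ) - 4))
        - 2 * (d + g) * ∑ u ∈ B, ((T : ℤ) - t u)
        + (B.card : ℤ) * (B.card * (2 * (T : ℤ) - 4))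
        + 2 * ((B.card : ℤ) * (R.card * (2 * (T : ℤ) - 2)))) := by
      unfold Kd
      rw [d1, d3, bb, br, rb, vb]
      ring
    have g0 : 0 ≤ g := le_trans (by positivity) hLg
    have hY3 : (d + g) * ((T : ℤ) * (T - 1)) ≤ (d + g) * (2 * ∑ u ∈ B, ((T : ℤ) - t u)) :=
      mul_le_mul_of_nonneg_left hY1 (by linarith)
    have hT2 : T2 d g L.card B.card T = (d + g) * ((T : ℤ) * (T - 1)) -
        ((B.card : ℤ) * (2 * ((T : ℤ) * (T + 1) - 2) - (2 * (T : ℤ) - 4))
        + (B.card : ℤ) * (B.card * (2 * (T : ℤ) - 4))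
        + 2 * ((B.card : ℤ) * (R.card * (2 * (T : ℤ) - 2)))) := by
      unfold T2
      rw [hLc]
      ring
    rw [hK]
    linarith

end H75.WI
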