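import Pool.Agent.H75.WI.Broom

namespace H75.WI

open Finset

lemma sum_ind (d p : ℕ) (hp : p ≤ d) :
    ∑ i ∈ Finset.range (d + 1), (if p = i then (1 : ℤ) else 0) = 1 := by
  rw [Finset.sum_ite_eq, if_pos (Finset.mem_range.2 (by omega))]

theorem broom_lower {n d a b : ℕ} (hd : 3 ≤ d) (hn : n = d + 1 + (a + b)) :
    PP d + ((a : ℤ) + b) * (d * (d + 1)) + 2 * (a * b * d) + 2 * ((a : ℤ) + b) + 2 * (a * a)
      + 2 * (b * b) ≤ ∑ x : Fin n, ∑ y : Fin n, ((broom n d a hd).dist x y : ℤ) := by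
  have hn1 : d + 1 ≤ n := by omega
  set G : ℕ → ℤ := fun p => ∑ i ∈ Finset.range (d + 1), |(i : ℤ) - p| + a * |((0 : ℕ) : ℤ) - p|
    + b * |(d : ℤ) - p| with hG
  set N : ℕ → ℤ := fun p => ∑ i ∈ Finset.range (d + 1), (if p = i then (1 : ℤ) else 0)
    + a * (if p = 0 then 1 else 0) + b * (if p = d then 1 else 0) with hN
  have hL : ∀ x y : Fin n, |(bpos d a y : ℤ) - bpos d a x| +
      2 * ((if bpos d a x = bpos d a y then (1 : ℤ) else 0) - (if x = y then 1 else 0)) ≤
      ((broom n d a hd).dist x y : ℤ) := by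
    intro x y
    obtain ⟨h1, h2⟩ := broom_dist_ge (a := a) hd hn1 x y
    by_cases hxy : x = y
    · subst hxy; simp
    · rw [if_neg hxy]
      by_cases hp : bpos d a x = bpos d a y
      · have := broom_dist_two hd hn1 x y hxy hp
        rw [if_pos hp, hp]
        simp only [sub_self, abs_zero, sub_zero, zero_add]
        exact_mod_cast this
      · rw [if_neg hp]
        simp only [sub_self, mul_zero, add_zero]
        rw [abs_le]
        constructor <;> linarith
  have hGx : ∀ x : Fin n, ∑ y : Fin n, |(bpos d a y : ℤ) - bpos d a x| = G (bpos d a x) := by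
    intro x
    exact bpos_sum b (fun p => |(p : ℤ) - bpos d a x|) hn
  have hNx : ∀ x : Fin n, ∑ y : Fin n, (if bpos d a x = bpos d a y then (1 : ℤ) else 0) =
      N (bpos d a x) := by
    intro x
    exact bpos_sum b (fun p => if bpos d a x = p then (1 : ℤ) else 0) hn
  have hsum : ∑ x : Fin n, (G (bpos d a x) + 2 * (N (bpos d a x) - 1)) ≤
      ∑ x : Fin n, ∑ y : Fin n, ((broom n d a hd).dist x y : ℤ) := by
    apply Finset.sum_le_sum
    intro x _
    rw [← hGx, ← hNx]
    refine le_trans (le_of_eq ?_) (Finset.sum_le_sum (fun y _ => hL x y))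
    rw [Finset.sum_add_distrib, ← Finset.mul_sum, Finset.sum_sub_distrib, Finset.sum_ite_eq,
      if_pos (Finset.mem_univ _)]
  refine le_trans (le_of_eq ?_) hsum
  rw [bpos_sum b (fun p => G p + 2 * (N p - 1)) hn, Finset.sum_add_distrib, ← Finset.mul_sum,
    Finset.sum_sub_distrib]
  have s0 : 2 * ∑ i ∈ Finset.range (d + 1), |(i : ℤ) - ((0 : ℕ) : ℤ)| = d * (d + 1) := by
    rw [two_sum_abs 0 d (Nat.zero_le _)]; simp
  have sd : 2 * ∑ i ∈ Finset.range (d + 1), |(i : ℤ) - ((d : ℕ) : ℤ)| = d * (d + 1) := by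
    rw [two_sum_abs d d le_rfl]; simp
  have s0' : ∑ i ∈ Finset.range (d + 1), |((0 : ℕ) : ℤ) - i| =
      ∑ i ∈ Finset.range (d + 1), |(i : ℤ) - ((0 : ℕ) : ℤ)| :=
    Finset.sum_congr rfl (fun i _ => abs_sub_comm _ _)
  have sd' : ∑ i ∈ Finset.range (d + 1), |(d : ℤ) - i| =
      ∑ i ∈ Finset.range (d + 1), |(i : ℤ) - ((d : ℕ) : ℤ)| :=
    Finset.sum_congr rfl (fun i _ => abs_sub_comm _ _)
  have g1 : ∑ p ∈ Finset.range (d + 1), G p = PP d +
      a * ∑ i ∈ Finset.range (d + 1), |(i : ℤ) - ((0 : ℕ) : ℤ)| +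
      b * ∑ i ∈ Finset.range (d + 1), |(i : ℤ) - ((d : ℕ) : ℤ)| := by
    simp only [hG]
    rw [Finset.sum_add_distrib, Finset.sum_add_distrib, ← Finset.mul_sum, ← Finset.mul_sum, s0', sd']
    have : ∑ x ∈ Finset.range (d + 1), ∑ i ∈ Finset.range (d + 1), |(i : ℤ) - x| = PP d := by
      unfold PP
      rw [Finset.sum_comm]
    rw [this]
  have g2 : G 0 = ∑ i ∈ Finset.range (d + 1), |(i : ℤ) - ((0 : ℕ) : ℤ)| + b * d := by
    simp only [hG]
    simp
  have g3 : G d = ∑ i ∈ Finset.range (d + 1), |(i : ℤ) - ((d : ℕ) : ℤ)| + a * d := by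
    simp only [hG]
    simp
  have n1 : ∑ p ∈ Finset.range (d + 1), N p = (d + 1) + a + b := by
    simp only [hN]
    rw [Finset.sum_add_distrib, Finset.sum_add_distrib, ← Finset.mul_sum, ← Finset.mul_sum]
    have e1 : ∑ x ∈ Finset.range (d + 1), ∑ i ∈ Finset.range (d + 1), (if x = i then (1 : ℤ) else 0)
        = d + 1 := by
      rw [Finset.sum_congr rfl (fun x hx => sum_ind d x (by rw [Finset.mem_range] at hx; omega))]
      simp
    have e2 : ∑ x ∈ Finset.range (d + 1), (if x = 0 then (1 : ℤ) else 0) = 1 := by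
      rw [Finset.sum_ite_eq', if_pos (Finset.mem_range.2 (by omega))]
    have e3 : ∑ x ∈ Finset.range (d + 1), (if x = d then (1 : ℤ) else 0) = 1 := by
      rw [Finset.sum_ite_eq', if_pos (Finset.mem_range.2 (by omega))]
    rw [e1, e2, e3]; ring
  have n2 : N 0 = 1 + a := by
    simp only [hN]
    rw [sum_ind d 0 (by omega), if_pos trivial, if_neg (by omega)]; ring
  have n3 : N d = 1 + b := by
    simp only [hN]
    rw [sum_ind d d le_rfl, if_neg (by omega), if_pos trivial]; ring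
  rw [g1, g2, g3, n1, n2, n3, Finset.sum_const, Finset.card_range, nsmul_eq_mul]
  push_cast
  linear_combination (-(a : ℤ)) * s0 - (b : ℤ) * sd

end H75.WI
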