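import Mathlib

namespace H75.WI

open Finset

variable {V : Type*}

/-- graph metrics -/
structure GMet (D : V → V → ℕ) : Prop where
  self : ∀ u, D u u = 0
  symm : ∀ u v, D u v = D v u
  tri : ∀ u v w, D u w ≤ D u v + D v w
  step : ∀ u v, u ≠ v → ∃ w, D u w = 1 ∧ D w v + 1 = D u v

lemma GMet.eq_of {D : V → V → ℕ} (hD : GMet D) {u v : V} (h : D u v = 0) : u = v := by
  by_contra hc
  obtain ⟨w, _, h2⟩ := hD.step u v hc
  omega

lemma GMet.geo {D : V → V → ℕ} (hD : GMet D) : ∀ (n : ℕ) (u v : V), D u v = n →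
    ∃ p : ℕ → V, p 0 = u ∧ p n = v ∧ (∀ i ≤ n, D (p i) v + i = n) ∧
      (∀ i < n, D (p i) (p (i + 1)) = 1) := by
  intro n
  induction n with
  | zero =>
    intro u v h
    have := hD.eq_of h
    subst this
    exact ⟨fun _ => u, rfl, rfl, fun i hi => by
      have : i = 0 := by omega
      subst this; simp [hD.self], fun i hi => by omega⟩
  | succ n ih =>
    intro u v h
    have huv : u ≠ v := fun h' => by subst h'; rw [hD.self] at h; omega
    obtain ⟨w, h1, h2⟩ := hD.step u v huv
    obtain ⟨q, q0, qn, q1, q2⟩ := ih w v (by omega)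
    refine ⟨fun i => if i = 0 then u else q (i - 1), by simp, by simpa using qn, ?_, ?_⟩
    · intro i hi
      rcases Nat.eq_zero_or_pos i with h0 | h0
      · subst h0; simpa using h
      · beta_reduce
        rw [if_neg (by omega)]
        have := q1 (i - 1) (by omega)
        omega
    · intro i hi
      rcases Nat.eq_zero_or_pos i with h0 | h0
      · subst h0; simp [q0, h1]
      · beta_reduce
        rw [if_neg (by omega), if_neg (by omega)]
        have := q2 (i - 1) (by omega)
        rw [show i - 1 + 1 = i by omega] at this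
        rw [show i + 1 - 1 = i by omega]
        exact this

lemma GMet.chain {D : V → V → ℕ} (hD : GMet D) (p : ℕ → V) (n : ℕ)
    (h : ∀ i < n, D (p i) (p (i + 1)) ≤ 1) (i j : ℕ) (hij : i ≤ j) (hj : j ≤ n) :
    D (p i) (p j) ≤ j - i := by
  induction j, hij using Nat.le_induction with
  | base => simp [hD.self]
  | succ j hij ih =>
    have h1 := ih (by omega)
    have h2 := h j (by omega)
    have h3 := hD.tri (p i) (p j) (p (j + 1))
    omega

variable [Fintype V] [DecidableEq V]

/-- vertices off the path -/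
noncomputable def offP (P : ℕ → V) (d : ℕ) : Finset V :=
  open Classical in Finset.univ.filter (fun v => ∀ i ≤ d, v ≠ P i)

lemma mem_offP {P : ℕ → V} {d : ℕ} {v : V} : v ∈ offP P d ↔ ∀ i ≤ d, v ≠ P i := by
  simp [offP]

lemma not_mem_offP {P : ℕ → V} {d : ℕ} {v : V} : v ∉ offP P d ↔ ∃ i ≤ d, v = P i := by
  rw [mem_offP]; push Not; rfl

/-- gate -/
lemma GMet.gate {D : V → V → ℕ} (hD : GMet D) (P : ℕ → V) (d : ℕ) (u : V)
    (hu : u ∈ offP P d) (e : ℕ) (he : e ≤ d) :
    ∃ (t j : ℕ) (p : ℕ → V), 1 ≤ t ∧ j ≤ d ∧ p 0 = u ∧ p t = P j ∧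
      (∀ i < t, p i ∈ offP P d) ∧ D u (P e) = t + D (P j) (P e) ∧
      (∀ i < t, D (p i) (p (i + 1)) = 1) ∧ (∀ i ≤ t, D u (p i) = i) := by
  obtain ⟨p, p0, pn, p1, p2⟩ := hD.geo (D u (P e)) u (P e) rfl
  have hex : ∃ i, p i ∉ offP P d := ⟨D u (P e), by
    rw [not_mem_offP]; exact ⟨e, he, pn⟩⟩
  classical
  set t := Nat.find hex with ht
  have h1 : p t ∉ offP P d := Nat.find_spec hex
  have h2 : ∀ i < t, p i ∈ offP P d := fun i hi => by
    have := Nat.find_min hex hi
    push Not at this
    exact this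
  have h3 : t ≤ D u (P e) := Nat.find_min' hex (by
    rw [not_mem_offP]; exact ⟨e, he, pn⟩)
  have h4 : t ≠ 0 := fun h0 => by
    rw [h0, p0] at h1; exact h1 hu
  obtain ⟨j, hj, hpj⟩ := not_mem_offP.1 h1
  refine ⟨t, j, p, by omega, hj, p0, hpj, h2, ?_, fun i hi => p2 i (by omega), ?_⟩
  · have := p1 t h3
    rw [hpj] at this
    omega
  · intro i hi
    have e1 := hD.chain p (D u (P e)) (fun i hi => (p2 i hi).le) 0 i (by omega) (by omega)
    rw [p0] at e1
    have e2 := p1 i (by omega)
    have e3 := hD.tri u (p i) (P e)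
    omega

/-- one step inside the off-path set -/
def stp (D : V → V → ℕ) (U : Finset V) (x y : V) : Prop := x ∈ U ∧ y ∈ U ∧ D x y = 1

omit [Fintype V] [DecidableEq V] in
lemma reach_of_seq {D : V → V → ℕ} {U : Finset V} (p : ℕ → V) (t : ℕ)
    (h1 : ∀ i < t, p i ∈ U) (h2 : ∀ i < t, D (p i) (p (i + 1)) = 1) :
    ∀ i < t, Relation.ReflTransGen (stp D U) (p 0) (p i) := by
  intro i
  induction i with
  | zero => intro _; exact Relation.ReflTransGen.refl
  | succ i ih =>
    intro hi
    exact Relation.ReflTransGen.tail (ih (by omega)) ⟨h1 i (by omega), h1 (i + 1) hi, h2 i (by omega)⟩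

/-- if the centre is far from `u` then the off-path set is large -/
lemma GMet.centre {D : V → V → ℕ} (hD : GMet D) (P : ℕ → V) (d c : ℕ)
    (hP : ∀ i j, i ≤ j → j ≤ d → D (P i) (P j) = j - i) (hdiam : ∀ u v, D u v ≤ d)
    (hc : 2 * c ≤ d) (hc' : d ≤ 2 * c + 1) (u : V)
    (h1 : c < D u (P c)) (h2 : c < D u (P (d - c))) :
    ∃ S ⊆ offP P d, d ≤ 2 * S.card ∧ u ∈ offP P d ∧
      ∀ x ∈ S, Relation.ReflTransGen (stp D (offP P d)) u x := by
  have hP' : ∀ i j, i ≤ d → j ≤ d → D (P i) (P j) = (i - j) + (j - i) := by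
    intro i j hi hj
    rcases le_total i j with h | h
    · rw [hP i j h hj]; omega
    · rw [hD.symm, hP j i h hi]; omega
  have hu : u ∈ offP P d := by
    by_contra hc
    obtain ⟨i, hi, rfl⟩ := not_mem_offP.1 hc
    rw [hP' i _ hi (by omega)] at h1 h2
    omega
  obtain ⟨tL, jL, pL, tL1, jLd, pL0, pLt, pLU, eL, pL1, pLd⟩ := hD.gate P d u hu 0 (by omega)
  obtain ⟨tR, jR, pR, tR1, jRd, pR0, pRt, pRU, eR, pR1, pRd⟩ := hD.gate P d u hu d le_rfl
  have b1 := hdiam u (P 0)
  have b2 := hdiam u (P d)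
  rw [hP' jL 0 jLd (by omega)] at eL
  rw [hP' jR d jRd le_rfl] at eR
  have c1 : D u (P c) ≤ tL + D (P jL) (P c) := by
    have := hD.tri u (P jL) (P c)
    rw [← pLt, pLd tL le_rfl, pLt] at this
    exact this
  have c2 : D u (P (d - c)) ≤ tL + D (P jL) (P (d - c)) := by
    have := hD.tri u (P jL) (P (d - c))
    rw [← pLt, pLd tL le_rfl, pLt] at this
    exact this
  have c3 : D u (P c) ≤ tR + D (P jR) (P c) := by
    have := hD.tri u (P jR) (P c)
    rw [← pRt, pRd tR le_rfl, pRt] at this
    exact this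
  have c4 : D u (P (d - c)) ≤ tR + D (P jR) (P (d - c)) := by
    have := hD.tri u (P jR) (P (d - c))
    rw [← pRt, pRd tR le_rfl, pRt] at this
    exact this
  rw [hP' jL c jLd (by omega)] at c1
  rw [hP' jL (d - c) jLd (by omega)] at c2
  rw [hP' jR c jRd (by omega)] at c3
  rw [hP' jR (d - c) jRd (by omega)] at c4
  have key1 : jL + 1 ≤ tL := by omega
  have key2 : d + 1 ≤ tR + jR := by omega
  -- counting
  set SL := (Finset.range tL).image pL with hSL
  set SR := (Finset.range tR).image pR with hSR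
  have injL : Set.InjOn pL (Finset.range tL : Finset ℕ) := by
    intro x hx y hy hxy
    rw [Finset.coe_range, Set.mem_Iio] at hx hy
    have := pLd x (by omega)
    have := pLd y (by omega)
    rw [hxy] at *
    omega
  have injR : Set.InjOn pR (Finset.range tR : Finset ℕ) := by
    intro x hx y hy hxy
    rw [Finset.coe_range, Set.mem_Iio] at hx hy
    have := pRd x (by omega)
    have := pRd y (by omega)
    rw [hxy] at *
    omega
  have cardL : SL.card = tL := by rw [hSL, Finset.card_image_of_injOn injL, Finset.card_range]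
  have cardR : SR.card = tR := by rw [hSR, Finset.card_image_of_injOn injR, Finset.card_range]
  -- last common index
  set Kset := (Finset.range (min tL tR)).filter (fun i => pL i = pR i) with hKs
  have hK0 : 0 ∈ Kset := by
    rw [hKs, Finset.mem_filter, Finset.mem_range]
    exact ⟨by omega, by rw [pL0, pR0]⟩
  set k := Kset.max' ⟨0, hK0⟩ with hk
  have hkK : k ∈ Kset := Finset.max'_mem _ _
  have hkmax : ∀ i ∈ Kset, i ≤ k := fun i hi => Finset.le_max' _ _ hi
  rw [hKs, Finset.mem_filter, Finset.mem_range] at hkK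
  obtain ⟨hk1, hk2⟩ := hkK
  have hinter : (SL ∩ SR).card ≤ k + 1 := by
    have : SL ∩ SR ⊆ (Finset.range (k + 1)).image pL := by
      intro x hx
      rw [Finset.mem_inter, hSL, hSR, Finset.mem_image, Finset.mem_image] at hx
      obtain ⟨⟨i, hi, hxi⟩, ⟨i', hi', hxi'⟩⟩ := hx
      rw [Finset.mem_range] at hi hi'
      have e1 := pLd i (by omega)
      have e2 := pRd i' (by omega)
      rw [hxi] at e1
      rw [hxi'] at e2
      have e3 : i = i' := by omega
      subst e3
      have : i ∈ Kset := by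
        rw [hKs, Finset.mem_filter, Finset.mem_range]
        exact ⟨by omega, by rw [hxi, hxi']⟩
      have := hkmax i this
      rw [Finset.mem_image]
      exact ⟨i, Finset.mem_range.2 (by omega), hxi⟩
    refine le_trans (Finset.card_le_card this) (le_trans Finset.card_image_le ?_)
    rw [Finset.card_range]
  have hunion : (SL ∪ SR).card + (SL ∩ SR).card = tL + tR := by
    rw [Finset.card_union_add_card_inter, cardL, cardR]
  have hJ : jR ≤ jL + (tL - k) + (tR - k) := by
    have e1 := hD.chain pL tL (fun i hi => (pL1 i hi).le) k tL (by omega) le_rfl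
    have e2 := hD.chain pR tR (fun i hi => (pR1 i hi).le) k tR (by omega) le_rfl
    rw [pLt] at e1
    rw [pRt, ← hk2] at e2
    have e3 := hD.tri (P jL) (pL k) (P jR)
    rw [hD.symm (P jL) (pL k)] at e3
    rw [hP' jL jR jLd jRd] at e3
    omega
  refine ⟨SL ∪ SR, ?_, ?_, hu, ?_⟩
  · intro x hx
    rw [Finset.mem_union, hSL, hSR, Finset.mem_image, Finset.mem_image] at hx
    rcases hx with ⟨i, hi, rfl⟩ | ⟨i, hi, rfl⟩
    · exact pLU i (Finset.mem_range.1 hi)
    · exact pRU i (Finset.mem_range.1 hi)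
  · omega
  · intro x hx
    rw [Finset.mem_union, hSL, hSR, Finset.mem_image, Finset.mem_image] at hx
    rcases hx with ⟨i, hi, rfl⟩ | ⟨i, hi, rfl⟩
    · have := reach_of_seq pL tL pLU pL1 i (Finset.mem_range.1 hi)
      rwa [pL0] at this
    · have := reach_of_seq pR tR pRU pR1 i (Finset.mem_range.1 hi)
      rwa [pR0] at this

end H75.WI
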