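import Mathlib

/-! Numerical inequality for the Wiener index problem MP_ed5641_co. -/

namespace H75.WI

/-- loss of an unbalanced split of `g` into `a` and `g - a` -/
def Dg (g a : ℤ) : ℤ := if g ≤ 2 * a then g * g / 4 - a * (g - a) else 0

lemma gg4 (g : ℤ) : (∃ k, g = 2 * k ∧ g * g / 4 = k * k) ∨
    (∃ k, g = 2 * k - 1 ∧ g * g / 4 = k * k - k) := by
  rcases Int.even_or_odd' g with ⟨k, hk | hk⟩
  · left
    refine ⟨k, hk, ?_⟩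
    have : g * g = 4 * (k * k) := by rw [hk]; ring
    omega
  · right
    refine ⟨k + 1, by omega, ?_⟩
    have : g * g = 4 * (k * k + k) + 1 := by rw [hk]; ring
    have h2 : (k + 1) * (k + 1) - (k + 1) = k * k + k := by ring
    omega

lemma Dg_nonneg (g a : ℤ) : 0 ≤ Dg g a := by
  unfold Dg
  split_ifs with h
  · rcases gg4 g with ⟨k, hk, h4⟩ | ⟨k, hk, h4⟩
    · rw [h4]; subst hk; nlinarith [sq_nonneg (a - k)]
    · rw [h4]; subst hk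
      have : k ≤ a := by omega
      nlinarith [mul_nonneg (sub_nonneg.2 this) (sub_nonneg.2 this)]
  · exact le_refl _

/-- the branch term -/
def T2 (d g a m t : ℤ) : ℤ :=
  (d + g) * t * (t - 1) + 2 * t * m * (m - t) - 4 * (t - 1) * a * m

lemma T2_sq (d g a m t : ℤ) : 2 * t * T2 d g a m t =
    (2 * t * m - (t ^ 2 + 2 * (t - 1) * a)) ^ 2 +
      (2 * (d + g) * (t ^ 2 * (t - 1)) - (t ^ 2 + 2 * (t - 1) * a) ^ 2) := by
  unfold T2; ring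

lemma N1 (d g a m t : ℤ) (h1 : 1 ≤ t) (h2 : t ≤ m) (h3 : t ≤ a)
    (h : a ^ 2 + 6 * a + 1 ≤ 2 * (d + g)) : 0 ≤ T2 d g a m t := by
  rcases eq_or_lt_of_le h1 with h1 | h1
  · subst h1; unfold T2; nlinarith
  · have key : 0 ≤ 2 * (d + g) * (t ^ 2 * (t - 1)) - (t ^ 2 + 2 * (t - 1) * a) ^ 2 := by
      have e1 : (a ^ 2 + 6 * a + 1) * (t ^ 2 * (t - 1)) ≤ 2 * (d + g) * (t ^ 2 * (t - 1)) := by
        apply mul_le_mul_of_nonneg_right h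
        have : 0 ≤ t - 1 := by linarith
        positivity
      have e2 : (a ^ 2 + 6 * a + 1) * (t ^ 2 * (t - 1)) - (t ^ 2 + 2 * (t - 1) * a) ^ 2 =
          a ^ 2 * ((t - 1) * (t - 2) ^ 2) + 2 * (a - t) * (t ^ 2 * (t - 1))
            + t ^ 2 * (t ^ 2 - t - 1) := by ring
      have t1 : 0 ≤ t - 1 := by linarith
      have t2 : 0 ≤ t ^ 2 - t - 1 := by nlinarith
      have t3 : 0 ≤ a - t := by linarith
      have : 0 ≤ a ^ 2 * ((t - 1) * (t - 2) ^ 2) + 2 * (a - t) * (t ^ 2 * (t - 1))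
            + t ^ 2 * (t ^ 2 - t - 1) := by positivity
      linarith
    have := T2_sq d g a m t
    have h0 : 0 ≤ 2 * t * T2 d g a m t := by rw [this]; positivity
    by_contra hc
    push Not at hc
    nlinarith

/-- polynomial inequality for large `A` -/
lemma poly1 (A t : ℤ) (hA : 8 ≤ A) (ht : 2 ≤ t) (htA : t ≤ 2 * A) :
    0 ≤ A ^ 2 * ((t - 1) * (t - 2) ^ 2) + 2 * A * (t ^ 2 * (t - 1)) + t ^ 2 * (t - 1) - t ^ 4
      - 3 * (t ^ 2 * (t - 1) ^ 2) := by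
  have t1 : 0 ≤ t - 1 := by linarith
  rcases le_or_gt t 16 with h | h
  · have e1 : (64 : ℤ) ≤ A ^ 2 := by nlinarith
    have e2 : 64 * ((t - 1) * (t - 2) ^ 2) ≤ A ^ 2 * ((t - 1) * (t - 2) ^ 2) :=
      mul_le_mul_of_nonneg_right e1 (by positivity)
    have e3 : 2 * 8 * (t ^ 2 * (t - 1)) ≤ 2 * A * (t ^ 2 * (t - 1)) :=
      mul_le_mul_of_nonneg_right (by linarith) (by positivity)
    have e4 : 0 ≤ 64 * ((t - 1) * (t - 2) ^ 2) + 2 * 8 * (t ^ 2 * (t - 1)) + t ^ 2 * (t - 1)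
        - t ^ 4 - 3 * (t ^ 2 * (t - 1) ^ 2) := by
      interval_cases t <;> norm_num
    linarith
  · have e1 : t ^ 2 ≤ 4 * A ^ 2 := by nlinarith
    have e2 : t ^ 2 * ((t - 1) * (t - 2) ^ 2) ≤ 4 * A ^ 2 * ((t - 1) * (t - 2) ^ 2) :=
      mul_le_mul_of_nonneg_right e1 (by positivity)
    have e3 : t * (t ^ 2 * (t - 1)) ≤ 2 * A * (t ^ 2 * (t - 1)) :=
      mul_le_mul_of_nonneg_right (by linarith) (by positivity)
    have e4 : 0 ≤ t ^ 2 * ((t - 1) * (t - 2) ^ 2) + 4 * (t * (t ^ 2 * (t - 1)))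
        + 4 * (t ^ 2 * (t - 1)) - 4 * t ^ 4 - 12 * (t ^ 2 * (t - 1) ^ 2) := by
      have : t ^ 2 * ((t - 1) * (t - 2) ^ 2) + 4 * (t * (t ^ 2 * (t - 1)))
        + 4 * (t ^ 2 * (t - 1)) - 4 * t ^ 4 - 12 * (t ^ 2 * (t - 1) ^ 2) =
        t ^ 2 * ((t - 1) * (t - 2) ^ 2 + 4 * (t * (t - 1)) + 4 * (t - 1) - 4 * t ^ 2
          - 12 * (t - 1) ^ 2) := by ring
      rw [this]
      apply mul_nonneg (by positivity)
      obtain ⟨u, rfl⟩ : ∃ u, t = 17 + u := ⟨t - 17, by ring⟩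
      have hu : 0 ≤ u := by linarith
      have : (17 + u - 1) * (17 + u - 2) ^ 2 + 4 * ((17 + u) * (17 + u - 1)) + 4 * (17 + u - 1)
        - 4 * (17 + u) ^ 2 - 12 * (17 + u - 1) ^ 2 = u ^ 3 + 34 * u ^ 2 + 321 * u + 524 := by
        ring
      rw [this]; positivity
    linarith

lemma poly2 (A t : ℤ) (hA : 8 ≤ A) (ht : 2 ≤ t) (htA : t ≤ 2 * A) :
    (A ^ 2 + 2 * A - 1) * (t ^ 2 + 2 * (t - 1) * A) ^ 2 ≤
      (A ^ 2 + 2 * A - 1 - 2 * (t - 1)) * ((A ^ 2 + 6 * A + 1) * (t ^ 2 * (t - 1))) := by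
  have t1 : 0 ≤ t - 1 := by linarith
  have p1 := poly1 A t hA ht htA
  have q2 : 0 ≤ A ^ 2 + 2 * A - 1 := by nlinarith
  have q1 : 2 * (A ^ 2 + 6 * A + 1) ≤ 3 * (A ^ 2 + 2 * A - 1) := by nlinarith
  have h1 := mul_nonneg q2 p1
  have h2 : 2 * (A ^ 2 + 6 * A + 1) * (t ^ 2 * (t - 1) ^ 2) ≤
      3 * (A ^ 2 + 2 * A - 1) * (t ^ 2 * (t - 1) ^ 2) :=
    mul_le_mul_of_nonneg_right q1 (by positivity)
  nlinarith [h1, h2]

lemma poly3 (A t δ : ℤ) (hA : 8 ≤ A) (ht : 2 ≤ t) (htA : t ≤ 2 * A) :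
    (t ^ 2 + 2 * (t - 1) * (A + δ)) ^ 2 ≤
      (A ^ 2 + 6 * A + 1) * (t ^ 2 * (t - 1)) + 2 * t * (A ^ 2 + 2 * A - 1) * δ ^ 2 := by
  have p2 := poly2 A t hA ht htA
  have q2 : 0 < A ^ 2 + 2 * A - 1 := by nlinarith
  have q3 : 0 < A ^ 2 + 2 * A - 1 - 2 * (t - 1) := by nlinarith
  set Q2 := A ^ 2 + 2 * A - 1 with hQ2
  set Q1 := A ^ 2 + 6 * A + 1 with hQ1
  set K := t ^ 2 + 2 * (t - 1) * A with hK
  have hexp : t ^ 2 + 2 * (t - 1) * (A + δ) = K + 2 * (t - 1) * δ := by rw [hK]; ring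
  rw [hexp]
  have t1 : 0 ≤ t - 1 := by linarith
  by_contra hc
  push Not at hc
  have h1 := mul_lt_mul_of_pos_left hc q3
  have h2 : (Q2 - 2 * (t - 1)) * (K + 2 * (t - 1) * δ) ^ 2 =
      Q2 * K ^ 2 + (Q2 - 2 * (t - 1)) * Q2 * (2 * (t - 1)) * δ ^ 2
        - 2 * (t - 1) * (K - (Q2 - 2 * (t - 1)) * δ) ^ 2 := by ring
  have h3 : 0 ≤ 2 * (t - 1) * (K - (Q2 - 2 * (t - 1)) * δ) ^ 2 := by positivity
  have h4 : (Q2 - 2 * (t - 1)) * Q2 * (2 * (t - 1)) * δ ^ 2 ≤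
      (Q2 - 2 * (t - 1)) * Q2 * (2 * t) * δ ^ 2 := by
    apply mul_le_mul_of_nonneg_right _ (by positivity)
    apply mul_le_mul_of_nonneg_left (by linarith)
    exact mul_nonneg q3.le q2.le
  have h5 : (Q2 - 2 * (t - 1)) * (Q1 * (t ^ 2 * (t - 1)) + 2 * t * Q2 * δ ^ 2) =
      (Q2 - 2 * (t - 1)) * (Q1 * (t ^ 2 * (t - 1))) +
        (Q2 - 2 * (t - 1)) * Q2 * (2 * t) * δ ^ 2 := by ring
  linarith


/-- the finite check, `d0` = smallest admissible diameter -/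
def d0 (g m : ℤ) : ℤ :=
  if g = 5 ∧ m = 5 then 11 else if g ≤ 5 then 9 else if g ≤ 9 then 19 else if g ≤ 13 then 33 else 51

def chk (g a m t : ℤ) : Bool :=
  decide (0 ≤ T2 (d0 g m) g a m t + 2 * (d0 g m - 2) * (g * g / 4 - a * (g - a)))

lemma chk_all : ∀ g : Fin 15, ∀ a : Fin 15, ∀ m : Fin 15, ∀ t : Fin 15,
    2 ≤ (g : ℕ) → (g : ℕ) < 2 * (a : ℕ) → (a : ℕ) ≤ (g : ℕ) → (m : ℕ) ≤ (a : ℕ) →
    1 ≤ (t : ℕ) → (t : ℕ) ≤ (m : ℕ) →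
    chk (g : ℕ) (a : ℕ) (m : ℕ) (t : ℕ) = true := by
  decide +kernel

end H75.WI
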