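import Pool.Agent.H75.WI.Num

namespace H75.WI

lemma N3fin (d g a m t : ℤ) (h1 : 1 ≤ t) (h2 : t ≤ m) (h3 : m ≤ a) (h4 : a ≤ g) (hga : g < 2 * a)
    (hg : g ≤ 14) (hd : d0 g m ≤ d) :
    0 ≤ T2 d g a m t + 2 * (d - 2) * (g * g / 4 - a * (g - a)) := by
  have hg0 : 0 ≤ g := by linarith
  have ha0 : 0 ≤ a := by linarith
  have hm0 : 0 ≤ m := by linarith
  have ht0 : 0 ≤ t := by linarith
  rcases eq_or_lt_of_le (show 1 ≤ g by linarith) with hg1 | hg1
  · subst hg1
    have : a = 1 := by omega
    subst this
    have : m = 1 := by omega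
    subst this
    have : t = 1 := by omega
    subst this
    simp [T2]
  · have hc := chk_all ⟨g.toNat, by omega⟩ ⟨a.toNat, by omega⟩ ⟨m.toNat, by omega⟩
      ⟨t.toNat, by omega⟩ (by simp only; omega) (by simp only; omega) (by simp only; omega)
      (by simp only; omega) (by simp only; omega) (by simp only; omega)
    simp only [Int.toNat_of_nonneg hg0, Int.toNat_of_nonneg ha0, Int.toNat_of_nonneg hm0,
      Int.toNat_of_nonneg ht0, chk, decide_eq_true_eq] at hc
    have hD : 0 ≤ g * g / 4 - a * (g - a) := by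
      have := Dg_nonneg g a
      unfold Dg at this
      rwa [if_pos (by linarith)] at this
    have e : T2 d g a m t = T2 (d0 g m) g a m t + (d - d0 g m) * (t * (t - 1)) := by
      unfold T2; ring
    rw [e]
    have h5 : 0 ≤ (d - d0 g m) * (t * (t - 1)) := by
      apply mul_nonneg (by linarith)
      apply mul_nonneg ht0 (by linarith)
    have h6 : 0 ≤ 2 * (d - d0 g m) * (g * g / 4 - a * (g - a)) :=
      mul_nonneg (by linarith) hD
    nlinarith

lemma N (s d g a m t : ℤ) (hs : 1 ≤ s) (hd : 2 * s ^ 2 ≤ d - 1) (hg : g ≤ 4 * s - 3)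
    (h1 : 1 ≤ t) (h2 : t ≤ m) (h3 : m ≤ a) (h4 : a ≤ g) (h5 : 2 * t ≤ d)
    (h6 : ¬ (g = 5 ∧ m = 5 ∧ d ≤ 10)) :
    2 * (d - 2) * Dg g (a - m) ≤ T2 d g a m t + 2 * (d - 2) * Dg g a := by
  have hd3 : 3 ≤ d := by nlinarith
  by_cases c1 : 2 * a ≤ g + 1
  · have e1 : Dg g (a - m) = 0 := by
      unfold Dg; rw [if_neg (by linarith)]
    have e2 := Dg_nonneg g a
    have e3 : a ^ 2 + 6 * a + 1 ≤ 2 * (d + g) := by
      have : (a + 1) ^ 2 ≤ (2 * s) ^ 2 := by
        apply pow_le_pow_left₀ (by linarith) (by linarith)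
      nlinarith
    have e4 := N1 d g a m t h1 h2 (by linarith) e3
    rw [e1]
    have : 0 ≤ 2 * (d - 2) * Dg g a := mul_nonneg (by linarith) e2
    linarith
  · push Not at c1
    obtain ⟨A, hA1, hA2⟩ : ∃ A, g ≤ 2 * A ∧ 2 * A ≤ g + 1 := ⟨(g + 1) / 2, by omega, by omega⟩
    have hAs : A ≤ 2 * s - 1 := by linarith
    have hA0 : 1 ≤ A := by linarith
    have e3 : A ^ 2 + 6 * A + 1 ≤ 2 * (d + g) := by
      have : (A + 1) ^ 2 ≤ (2 * s) ^ 2 := by
        apply pow_le_pow_left₀ (by linarith) (by linarith)
      nlinarith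
    have e4 : A ^ 2 + 2 * A - 1 ≤ 2 * (d - 2) := by
      have : (A + 1) ^ 2 ≤ (2 * s) ^ 2 := by
        apply pow_le_pow_left₀ (by linarith) (by linarith)
      nlinarith
    have eDa : Dg g a = g * g / 4 - a * (g - a) := by
      unfold Dg; rw [if_pos (by linarith)]
    by_cases c2 : g ≤ 2 * (a - m)
    · have eDm : Dg g (a - m) = g * g / 4 - (a - m) * (g - (a - m)) := by
        unfold Dg; rw [if_pos c2]
      have f1 := N1 d g A m t h1 h2 (by linarith) e3
      have f2 : T2 d g a m t = T2 d g A m t - 4 * (t - 1) * (a - A) * m := by unfold T2; ring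
      have f3 : Dg g a - Dg g (a - m) = m * (2 * a - g - m) := by rw [eDa, eDm]; ring
      have f4 : m * (a - A) ≤ m * (2 * a - g - m) :=
        mul_le_mul_of_nonneg_left (by linarith) (by linarith)
      have f5 : 0 ≤ m * (a - A) := mul_nonneg (by linarith) (by linarith)
      have f6 : 2 * (t - 1) * (m * (a - A)) ≤ (d - 2) * (m * (a - A)) :=
        mul_le_mul_of_nonneg_right (by linarith) f5
      have f7 : 2 * (d - 2) * (m * (a - A)) ≤ 2 * (d - 2) * (m * (2 * a - g - m)) :=
        mul_le_mul_of_nonneg_left f4 (by linarith)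
      have f8 : 2 * (d - 2) * (Dg g a - Dg g (a - m)) = 2 * (d - 2) * (m * (2 * a - g - m)) := by
        rw [f3]
      rw [f2]
      nlinarith
    · push Not at c2
      have eDm : Dg g (a - m) = 0 := by
        unfold Dg; rw [if_neg (by linarith)]
      rw [eDm, eDa, mul_zero]
      rcases le_or_gt g 14 with hg14 | hg14
      · refine N3fin d g a m t h1 h2 h3 h4 (by linarith) hg14 ?_
        unfold d0
        have hss : ∀ k : ℤ, 0 ≤ k → k ≤ s → 2 * k ^ 2 + 1 ≤ d := fun k hk0 hk => by
          have : k ^ 2 ≤ s ^ 2 := pow_le_pow_left₀ hk0 hk 2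
          linarith
        split_ifs with q1 q2 q3 q4
        · by_contra hc
          exact h6 ⟨q1.1, q1.2, by linarith⟩
        · have := hss 2 (by norm_num) (by linarith)
          linarith
        · have := hss 3 (by norm_num) (by linarith)
          linarith
        · have := hss 4 (by norm_num) (by linarith)
          linarith
        · have := hss 5 (by norm_num) (by linarith)
          linarith
      · have hA8 : 8 ≤ A := by linarith
        rcases eq_or_lt_of_le h1 with ht1 | ht1
        · subst ht1
          have hD : 0 ≤ g * g / 4 - a * (g - a) := by rw [← eDa]; exact Dg_nonneg g a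
          have : 0 ≤ 2 * (d - 2) * (g * g / 4 - a * (g - a)) := mul_nonneg (by linarith) hD
          unfold T2
          nlinarith
        · have hD : (a - A) ^ 2 ≤ g * g / 4 - a * (g - a) := by
            rcases gg4 g with ⟨k, hk, h4'⟩ | ⟨k, hk, h4'⟩
            · have : A = k := by omega
              subst this
              rw [h4']; subst hk; nlinarith
            · have : A = k := by omega
              subst this
              rw [h4']; subst hk; nlinarith
          have p := poly3 A t (a - A) hA8 (by linarith) (by linarith)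
          have e5 := T2_sq d g a m t
          have e6 : A + (a - A) = a := by ring
          rw [e6] at p
          have e7 : (A ^ 2 + 6 * A + 1) * (t ^ 2 * (t - 1)) ≤ 2 * (d + g) * (t ^ 2 * (t - 1)) :=
            mul_le_mul_of_nonneg_right e3 (by
              have : 0 ≤ t - 1 := by linarith
              positivity)
          have e8 : (A ^ 2 + 2 * A - 1) * (a - A) ^ 2 ≤
              2 * (d - 2) * (g * g / 4 - a * (g - a)) :=
            mul_le_mul e4 hD (by positivity) (by linarith)
          have e9 : 2 * t * ((A ^ 2 + 2 * A - 1) * (a - A) ^ 2) ≤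
              2 * t * (2 * (d - 2) * (g * g / 4 - a * (g - a))) :=
            mul_le_mul_of_nonneg_left e8 (by linarith)
          have e10 : 0 ≤ (2 * t * m - (t ^ 2 + 2 * (t - 1) * a)) ^ 2 := by positivity
          have e11 : 0 ≤ 2 * t * (T2 d g a m t + 2 * (d - 2) * (g * g / 4 - a * (g - a))) := by
            nlinarith
          by_contra hc
          push Not at hc
          nlinarith

end H75.WI
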