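import Pool.Agent.H75.WI.Conn
import Pool.Agent.H75.WI.Gen

namespace H75.WI

open Finset

variable {V : Type*} [Fintype V] [DecidableEq V]

omit [Fintype V] [DecidableEq V] in
/-- path sum bound through a gate -/
lemma GMet.gateSum {D : V → V → ℕ} (hD : GMet D) (P : ℕ → V) (d : ℕ)
    (hP : ∀ i j, i ≤ j → j ≤ d → D (P i) (P j) = j - i) (u : V) (t j : ℕ) (hj : j ≤ d)
    (h : D u (P j) ≤ t) :
    2 * ∑ i ∈ Finset.range (d + 1), (D u (P i) : ℤ) ≤
      2 * (t * (d + 1)) + d * (d + 1) - 2 * (j * (d - j)) := by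
  have hP' : ∀ i j, i ≤ d → j ≤ d → D (P i) (P j) = (i - j) + (j - i) := by
    intro i j hi hj
    rcases le_total i j with h | h
    · rw [hP i j h hj]; omega
    · rw [hD.symm, hP j i h hi]; omega
  have e1 : ∑ i ∈ Finset.range (d + 1), (D u (P i) : ℤ) ≤
      ∑ i ∈ Finset.range (d + 1), ((t : ℤ) + |(i : ℤ) - j|) := by
    apply Finset.sum_le_sum
    intro i hi
    rw [Finset.mem_range] at hi
    have e2 := hD.tri u (P j) (P i)
    rw [hP' _ _ hj (by omega)] at e2
    rcases le_total j i with hh | hh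
    · rw [abs_of_nonneg (by have : (j : ℤ) ≤ i := by exact_mod_cast hh
                            linarith)]
      omega
    · rw [abs_of_nonpos (by have : (i : ℤ) ≤ j := by exact_mod_cast hh
                            linarith)]
      omega
  rw [Finset.sum_add_distrib, Finset.sum_const, Finset.card_range, nsmul_eq_mul] at e1
  have e3 := two_sum_abs j d hj
  push_cast at e1
  linarith

/-- the induced graph on the off-path set -/
def offG (D : V → V → ℕ) (hD : GMet D) (U : Finset V) : SimpleGraph U where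
  Adj x y := D x y = 1
  symm := ⟨fun x y h => by rw [hD.symm]; exact h⟩
  loopless := ⟨fun x h => by rw [hD.self] at h; omega⟩

omit [Fintype V] [DecidableEq V] in
lemma offG_dist {D : V → V → ℕ} (hD : GMet D) (U : Finset V) (hc : (offG D hD U).Connected)
    (x y : U) : D x y ≤ (offG D hD U).dist x y := by
  obtain ⟨p, hp⟩ := hc.exists_walk_length_eq_dist x y
  rw [← hp]
  clear hp
  induction p with
  | nil => simp [hD.self]
  | @cons a b c h q ih =>
    rw [SimpleGraph.Walk.length_cons]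
    have h1 : D a b = 1 := h
    have := hD.tri a b c
    omega

omit [Fintype V] [DecidableEq V] in
lemma offG_conn {D : V → V → ℕ} (hD : GMet D) (U : Finset V) (r : V) (hr : r ∈ U)
    (h : ∀ u ∈ U, Relation.ReflTransGen (stp D U) u r) : (offG D hD U).Connected := by
  have key : ∀ u, Relation.ReflTransGen (stp D U) u r → ∀ hu : u ∈ U,
      (offG D hD U).Reachable ⟨u, hu⟩ ⟨r, hr⟩ := by
    intro u hur
    induction hur using Relation.ReflTransGen.head_induction_on with
    | refl => intro _; exact SimpleGraph.Reachable.refl _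
    | head h1 h2 ih =>
      intro hu
      have hadj : (offG D hD U).Adj ⟨_, hu⟩ ⟨_, h1.2.1⟩ := h1.2.2
      exact hadj.reachable.trans (ih h1.2.1)
  have : Nonempty U := ⟨⟨r, hr⟩⟩
  refine SimpleGraph.Connected.mk ?_
  intro x y
  exact (key x (h x x.2) x.2).trans (key y (h y y.2) y.2).symm

theorem GMet.spec {D : V → V → ℕ} (hD : GMet D) (P : ℕ → V) (d : ℕ)
    (hP : ∀ i j, i ≤ j → j ≤ d → D (P i) (P j) = j - i) (hdiam : ∀ u v, D u v ≤ d)
    (hd : d = 9 ∨ d = 10) (h5 : (offP P d).card = 5) (r : V) (hr : r ∈ offP P d)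
    (hreach : ∀ u ∈ offP P d, Relation.ReflTransGen (stp D (offP P d)) u r) :
    IneqU D P d := by
  classical
  have hP' : ∀ i j, i ≤ d → j ≤ d → D (P i) (P j) = (i - j) + (j - i) := by
    intro i j hi hj
    rcases le_total i j with h | h
    · rw [hP i j h hj]; omega
    · rw [hD.symm, hP j i h hi]; omega
  set U := offP P d with hU
  have hc := offG_conn hD U r hr hreach
  set δ : V → V → ℕ := fun x y => if h : x ∈ U ∧ y ∈ U then
    (offG D hD U).dist ⟨x, h.1⟩ ⟨y, h.2⟩ else 0 with hδ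
  have F1 : ∀ x ∈ U, ∀ y ∈ U, D x y ≤ δ x y := by
    intro x hx y hy
    simp only [hδ, dif_pos (And.intro hx hy)]
    exact offG_dist hD U hc ⟨x, hx⟩ ⟨y, hy⟩
  have hcard : Fintype.card U = 5 := by rw [Fintype.card_coe]; exact h5
  have conv : ∀ x (hx : x ∈ U), ∑ y ∈ U, (δ x y : ℤ) =
      ∑ y : U, ((offG D hD U).dist ⟨x, hx⟩ y : ℤ) := by
    intro x hx
    rw [← Finset.sum_coe_sort U]
    apply Finset.sum_congr rfl
    intro y _
    simp only [hδ, dif_pos (And.intro hx y.2)]
  have F2 : ∀ x ∈ U, ∑ y ∈ U, (δ x y : ℤ) ≤ 10 := by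
    intro x hx
    have := (gmet_of_connected hc).level ⟨x, hx⟩
    rw [hcard] at this
    rw [conv x hx]
    push_cast at this
    linarith
  have F3 : ∑ x ∈ U, ∑ y ∈ U, (δ x y : ℤ) ≤ 40 := by
    have e0 := wiener_conn' hc hcard
    have e1 : ∑ x ∈ U, ∑ y ∈ U, (δ x y : ℤ) = ∑ x : U, ∑ y : U, ((offG D hD U).dist x y : ℤ) := by
      rw [← Finset.sum_coe_sort U]
      apply Finset.sum_congr rfl
      intro x _
      rw [conv x x.2]
    rw [e1]
    linarith
  have F4 : ∑ x ∈ U, ∑ y ∈ U, (D x y : ℤ) ≤ 40 := by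
    refine le_trans (Finset.sum_le_sum (fun x hx => Finset.sum_le_sum (fun y hy => ?_))) F3
    exact_mod_cast F1 x hx y hy
  have hconst : ∀ c : ℤ, 5 * c = ∑ _u ∈ U, c := by
    intro c; rw [Finset.sum_const, h5]; simp
  -- reduce the goal
  suffices hmain : 2 * ∑ u ∈ U, ∑ i ∈ Finset.range (d + 1), (D u (P i) : ℤ) ≤
      5 * ((d : ℤ) * (d + 1)) + 20 + 12 * (d - 2) by
    unfold IneqU
    rw [← hU, h5]
    have : ((5 : ℕ) : ℤ) * (5 : ℕ) / 4 = 6 := by norm_num
    rw [this]
    push_cast
    linarith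
  -- case analysis on adjacency positions
  by_cases c1 : ∃ w ∈ U, ∃ j, 4 ≤ j ∧ j + 4 ≤ d ∧ D w (P j) = 1
  · obtain ⟨w, hw, j, j1, j2, hwj⟩ := c1
    have e1 : ∀ u ∈ U, 2 * ∑ i ∈ Finset.range (d + 1), (D u (P i) : ℤ) ≤
        2 * (((δ w u : ℤ) + 1) * (d + 1)) + d * (d + 1) - 2 * (j * (d - j)) := by
      intro u hu
      have e2 := hD.gateSum P d hP u (δ w u + 1) j (by omega) (by
        have := hD.tri u w (P j)
        have h3 := F1 w hw u hu
        rw [hD.symm w u] at h3
        omega)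
      push_cast at e2
      exact e2
    rw [Finset.mul_sum]
    refine le_trans (Finset.sum_le_sum e1) ?_
    have e3 := F2 w hw
    have e4 : ∑ u ∈ U, (2 * (((δ w u : ℤ) + 1) * (d + 1)) + d * (d + 1) - 2 * (j * (d - j))) =
        2 * (d + 1) * ∑ u ∈ U, (δ w u : ℤ) + 5 * (2 * (d + 1) + d * (d + 1) - 2 * (j * (d - j))) := by
      rw [Finset.mul_sum, hconst, ← Finset.sum_add_distrib]
      apply Finset.sum_congr rfl
      intro u _; ring
    rw [e4]
    rcases hd with rfl | rfl
    · have : j = 4 ∨ j = 5 := by omega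
      rcases this with rfl | rfl <;> (push_cast; linarith)
    · have : j = 4 ∨ j = 5 ∨ j = 6 := by omega
      rcases this with rfl | rfl | rfl <;> (push_cast; linarith)
  push Not at c1
  by_cases c2 : (∀ w ∈ U, ∀ j, j + 3 ≥ d → j ≤ d → D w (P j) ≠ 1) ∨
      (∀ w ∈ U, ∀ j, j ≤ 3 → D w (P j) ≠ 1)
  · -- one-sided
    have e1 : ∀ u ∈ U, ∃ t j, 1 ≤ t ∧ j ≤ d ∧ ((t ≤ j ∧ j ≤ 3) ∨ (t + j ≤ d ∧ d ≤ j + 3)) ∧
        D u (P j) ≤ t ∧ ∃ w ∈ U, D w (P j) ≤ 1 := by
      intro u hu
      rcases c2 with c2 | c2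
      · obtain ⟨t, j, p, t1, jd, p0, pt, pU, pe, p1, pd⟩ := hD.gate P d u hu d le_rfl
        have q1 := p1 (t - 1) (by omega)
        rw [show t - 1 + 1 = t by omega, pt] at q1
        have q2 := pU (t - 1) (by omega)
        have q3 := hdiam u (P d)
        rw [hP' j d jd le_rfl] at pe
        have q4 : j ≤ 3 := by
          by_contra hj
          by_cases hj2 : j + 4 ≤ d
          · exact c1 _ q2 j (by omega) hj2 q1
          · exact c2 _ q2 j (by omega) jd q1
        refine ⟨t, j, t1, jd, Or.inl ⟨by omega, q4⟩, ?_, p (t - 1), q2, q1.le⟩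
        have := pd t le_rfl
        rw [pt] at this
        omega
      · obtain ⟨t, j, p, t1, jd, p0, pt, pU, pe, p1, pd⟩ := hD.gate P d u hu 0 (by omega)
        have q1 := p1 (t - 1) (by omega)
        rw [show t - 1 + 1 = t by omega, pt] at q1
        have q2 := pU (t - 1) (by omega)
        have q3 := hdiam u (P 0)
        rw [hP' j 0 jd (by omega)] at pe
        have q4 : d ≤ j + 3 := by
          by_contra hj
          by_cases hj2 : 4 ≤ j
          · exact c1 _ q2 j hj2 (by omega) q1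
          · exact c2 _ q2 j (by omega) q1
        refine ⟨t, j, t1, jd, Or.inr ⟨by omega, q4⟩, ?_, p (t - 1), q2, q1.le⟩
        have := pd t le_rfl
        rw [pt] at this
        omega
    have e2 : ∀ u ∈ U, 2 * ∑ i ∈ Finset.range (d + 1), (D u (P i) : ℤ) ≤ d * (d + 1) + 24 := by
      intro u hu
      obtain ⟨t, j, t1, jd, htj, hD1, -⟩ := e1 u hu
      have e3 := hD.gateSum P d hP u t j jd hD1
      have e4 : 2 * ((t : ℤ) * (d + 1)) - 2 * (j * (d - j)) ≤ 24 := by
        rcases hd with rfl | rfl <;> rcases htj with ⟨h1, h2⟩ | ⟨h1, h2⟩ <;>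
          interval_cases j <;> push_cast <;> omega
      linarith
    obtain ⟨t0, j0, ht01, j0d, htj0, -, w0, hw0, hw0j⟩ := e1 r hr
    have e3 : 2 * ∑ i ∈ Finset.range (d + 1), (D w0 (P i) : ℤ) ≤ d * (d + 1) + 4 := by
      have e3 := hD.gateSum P d hP w0 1 j0 j0d hw0j
      have e4 : 2 * (((1 : ℕ) : ℤ) * (d + 1)) - 2 * (j0 * (d - j0)) ≤ 4 := by
        rcases hd with rfl | rfl <;> rcases htj0 with ⟨h1, h2⟩ | ⟨h1, h2⟩ <;>
          interval_cases j0 <;> push_cast <;> omega
      linarith
    rw [Finset.mul_sum, ← Finset.add_sum_erase _ _ hw0]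
    have e5 : ∑ u ∈ U.erase w0, 2 * ∑ i ∈ Finset.range (d + 1), (D u (P i) : ℤ) ≤
        ∑ u ∈ U.erase w0, ((d : ℤ) * (d + 1) + 24) :=
      Finset.sum_le_sum (fun u hu => e2 u (Finset.mem_of_mem_erase hu))
    rw [Finset.sum_const, Finset.card_erase_of_mem hw0, h5, nsmul_eq_mul] at e5
    rcases hd with rfl | rfl <;> (push_cast at e3 e5 ⊢; linarith)
  · -- two-sided
    push Not at c2
    obtain ⟨⟨wb, hwb, b, hb1, hb2, hb3⟩, ⟨wa, hwa, a, ha1, ha3⟩⟩ := c2
    have e1 : ∀ u ∈ U, ∑ i ∈ Finset.range (d + 1), (D u (P i) : ℤ) ≤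
        5 * (1 + (δ wa u : ℤ)) + (d - 4) * (1 + (δ wb u : ℤ)) + 25 := by
      intro u hu
      have fa : ∀ i ≤ d, D u (P i) ≤ 1 + δ wa u + ((i - a) + (a - i)) := by
        intro i hi
        have g1 := F1 wa hwa u hu
        have g2 := hD.tri u wa (P i)
        have g3 := hD.tri wa (P a) (P i)
        rw [hP' a i (by omega) hi] at g3
        rw [hD.symm wa u] at g1
        omega
      have fb : ∀ i ≤ d, D u (P i) ≤ 1 + δ wb u + ((i - b) + (b - i)) := by
        intro i hi
        have g1 := F1 wb hwb u hu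
        have g2 := hD.tri u wb (P i)
        have g3 := hD.tri wb (P b) (P i)
        rw [hP' b i hb2 hi] at g3
        rw [hD.symm wb u] at g1
        omega
      rcases hd with rfl | rfl
      · have a0 := fa 0 (by omega)
        have a1 := fa 1 (by omega)
        have a2 := fa 2 (by omega)
        have a3 := fa 3 (by omega)
        have a4 := fa 4 (by omega)
        have b5 := fb 5 (by omega)
        have b6 := fb 6 (by omega)
        have b7 := fb 7 (by omega)
        have b8 := fb 8 (by omega)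
        have b9 := fb 9 (by omega)
        simp only [Finset.sum_range_succ, Finset.sum_range_zero]
        push_cast
        omega
      · have a0 := fa 0 (by omega)
        have a1 := fa 1 (by omega)
        have a2 := fa 2 (by omega)
        have a3 := fa 3 (by omega)
        have a4 := fa 4 (by omega)
        have b5 := fb 5 (by omega)
        have b6 := fb 6 (by omega)
        have b7 := fb 7 (by omega)
        have b8 := fb 8 (by omega)
        have b9 := fb 9 (by omega)
        have b10 := fb 10 (by omega)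
        simp only [Finset.sum_range_succ, Finset.sum_range_zero]
        push_cast
        omega
    have e2 : ∑ u ∈ U, ∑ i ∈ Finset.range (d + 1), (D u (P i) : ℤ) ≤
        5 * ∑ u ∈ U, (δ wa u : ℤ) + (d - 4) * ∑ u ∈ U, (δ wb u : ℤ) + 5 * (5 + (d - 4) + 25) := by
      refine le_trans (Finset.sum_le_sum e1) (le_of_eq ?_)
      rw [Finset.mul_sum, Finset.mul_sum, hconst, ← Finset.sum_add_distrib,
        ← Finset.sum_add_distrib]
      apply Finset.sum_congr rfl
      intro u _
      ring
    have f1 := F2 wa hwa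
    have f2 := F2 wb hwb
    rcases hd with rfl | rfl <;> (push_cast at e2 ⊢; linarith)

end H75.WI
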