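import Pool.Agent.H75.WI.Met

namespace H75.WI

open Finset

variable {V : Type*} [Fintype V] [DecidableEq V]

/-- data (gate index, depth, branch root) along parents -/
def info (U : Finset V) (par : V → V) (idx : V → ℕ) : ℕ → V → ℕ × ℕ × V
  | 0, x => (0, 0, x)
  | (n + 1), x => if par x ∈ U then
      ((info U par idx n (par x)).1, (info U par idx n (par x)).2.1 + 1,
        (info U par idx n (par x)).2.2)
      else (idx (par x), 1, x)

theorem GMet.tree {D : V → V → ℕ} (hD : GMet D) (P : ℕ → V) (d c : ℕ)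
    (hP : ∀ i j, i ≤ j → j ≤ d → D (P i) (P j) = j - i)
    (hc : 2 * c ≤ d) (hc' : d ≤ 2 * c + 1)
    (hcen : ∀ u ∈ offP P d, D u (P c) ≤ c ∨ D u (P (d - c)) ≤ c) :
    ∃ (J t : V → ℕ) (root : V → V), ∀ u ∈ offP P d,
      1 ≤ t u ∧ J u ≤ d ∧ D u (P (J u)) ≤ t u ∧ t u ≤ J u ∧ t u + J u ≤ d ∧
      root u ∈ offP P d ∧ D u (root u) + 1 ≤ t u ∧
      Relation.ReflTransGen (stp D (offP P d)) u (root u) ∧ J (root u) = J u ∧
      (∀ k, 1 ≤ k → k ≤ t u → ∃ v ∈ offP P d, root v = root u ∧ t v = k) := by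
  have hP' : ∀ i j, i ≤ d → j ≤ d → D (P i) (P j) = (i - j) + (j - i) := by
    intro i j hi hj
    rcases le_total i j with h | h
    · rw [hP i j h hj]; omega
    · rw [hD.symm, hP j i h hi]; omega
  set U := offP P d with hU
  set γ : V → ℕ := fun u => min (D u (P c)) (D u (P (d - c))) with hγ
  have hpar : ∀ x, ∃ w, 1 ≤ γ x → D x w = 1 ∧ γ w + 1 = γ x := by
    intro x
    by_cases hx : 1 ≤ γ x
    · have h1 : 1 ≤ D x (P c) := le_trans hx (min_le_left _ _)
      have h2 : 1 ≤ D x (P (d - c)) := le_trans hx (min_le_right _ _)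
      rcases le_total (D x (P c)) (D x (P (d - c))) with h | h
      · obtain ⟨w, w1, w2⟩ := hD.step x (P c) (fun h => by rw [h, hD.self] at h1; omega)
        refine ⟨w, fun _ => ⟨w1, ?_⟩⟩
        have t1 := hD.tri x w (P (d - c))
        simp only [hγ]
        omega
      · obtain ⟨w, w1, w2⟩ := hD.step x (P (d - c)) (fun h => by rw [h, hD.self] at h2; omega)
        refine ⟨w, fun _ => ⟨w1, ?_⟩⟩
        have t1 := hD.tri x w (P c)
        simp only [hγ]
        omega
    · exact ⟨x, fun h => absurd h hx⟩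
  choose par hpar using hpar
  have hidx : ∀ v, ∃ j, v ∉ U → j ≤ d ∧ v = P j := by
    intro v
    by_cases hv : v ∈ U
    · exact ⟨0, fun h => absurd hv h⟩
    · obtain ⟨j, hj, h⟩ := not_mem_offP.1 hv
      exact ⟨j, fun _ => ⟨hj, h⟩⟩
  choose idx hidx using hidx
  have hγU : ∀ u ∈ U, 1 ≤ γ u := by
    intro u hu
    rw [hU, mem_offP] at hu
    have h1 : D u (P c) ≠ 0 := fun h => hu c (by omega) (hD.eq_of h)
    have h2 : D u (P (d - c)) ≠ 0 := fun h => hu (d - c) (by omega) (hD.eq_of h)
    simp only [hγ]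
    omega
  set J : V → ℕ := fun x => (info U par idx (γ x) x).1 with hJ
  set t : V → ℕ := fun x => (info U par idx (γ x) x).2.1 with ht
  set root : V → V := fun x => (info U par idx (γ x) x).2.2 with hroot
  have caseA : ∀ x ∈ U, par x ∈ U → J x = J (par x) ∧ t x = t (par x) + 1 ∧
      root x = root (par x) := by
    intro x hx hp
    have h1 := (hpar x (hγU x hx)).2
    simp only [hJ, ht, hroot]
    rw [← h1]
    simp only [info, if_pos hp]
    exact ⟨trivial, trivial, trivial⟩
  have caseB : ∀ x ∈ U, par x ∉ U → J x = idx (par x) ∧ t x = 1 ∧ root x = x := by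
    intro x hx hp
    have h1 := (hpar x (hγU x hx)).2
    simp only [hJ, ht, hroot]
    rw [← h1]
    simp only [info, if_neg hp]
    exact ⟨trivial, trivial, trivial⟩
  have main : ∀ n, ∀ u ∈ U, γ u = n → 1 ≤ t u ∧ J u ≤ d ∧ D u (P (J u)) ≤ t u ∧
      γ u = t u + γ (P (J u)) ∧
      root u ∈ U ∧ D u (root u) + 1 ≤ t u ∧
      Relation.ReflTransGen (stp D U) u (root u) ∧ J (root u) = J u ∧
      (∀ k, 1 ≤ k → k ≤ t u → ∃ v ∈ U, root v = root u ∧ t v = k) := by
    intro n
    induction n with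
    | zero =>
      intro u hu h
      have := hγU u hu
      omega
    | succ n ih =>
      intro u hu h
      obtain ⟨p1, p2⟩ := hpar u (hγU u hu)
      by_cases hp : par u ∈ U
      · obtain ⟨a1, a2, a3⟩ := caseA u hu hp
        obtain ⟨b1, b2, b3, b4, b5, b6, b7, b8, b9⟩ := ih (par u) hp (by omega)
        rw [a1, a2, a3]
        refine ⟨by omega, b2, ?_, by omega, b5, ?_, ?_, b8, ?_⟩
        · have := hD.tri u (par u) (P (J (par u)))
          omega
        · have := hD.tri u (par u) (root (par u))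
          omega
        · exact Relation.ReflTransGen.head ⟨hu, hp, p1⟩ b7
        · intro k hk1 hk2
          rcases Nat.lt_or_ge k (t (par u) + 1) with hk | hk
          · exact b9 k hk1 (by omega)
          · exact ⟨u, hu, a3, by omega⟩
      · obtain ⟨a1, a2, a3⟩ := caseB u hu hp
        obtain ⟨i1, i2⟩ := hidx (par u) hp
        rw [a1, a2, a3]
        refine ⟨le_rfl, i1, ?_, ?_, hu, ?_, Relation.ReflTransGen.refl, a1, ?_⟩
        · rw [← i2, p1]
        · rw [← i2]; omega
        · rw [hD.self]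
        · intro k hk1 hk2
          exact ⟨u, hu, a3, by omega⟩
  refine ⟨J, t, root, ?_⟩
  intro u hu
  obtain ⟨b1, b2, b3, b4, b5, b6, b7, b8, b9⟩ := main (γ u) u hu rfl
  have e1 : γ u ≤ c := by
    rcases hcen u hu with h | h
    · exact le_trans (min_le_left _ _) h
    · exact le_trans (min_le_right _ _) h
  have e2 : γ (P (J u)) = min ((J u - c) + (c - J u)) ((J u - (d - c)) + ((d - c) - J u)) := by
    simp only [hγ]
    rw [hP' _ _ b2 (by omega), hP' _ _ b2 (by omega)]
  rw [e2] at b4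
  exact ⟨b1, b2, b3, by omega, by omega, b5, b6, b7, b8, b9⟩

end H75.WI
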