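import Pool.Agent.H75.WI.Spec

namespace H75.WI

open Finset

variable {V : Type*} [Fintype V] [DecidableEq V]

/-- the common value -/
def PP (d : ℕ) : ℤ := ∑ i ∈ Finset.range (d + 1), ∑ j ∈ Finset.range (d + 1), |(i : ℤ) - j|

def Fbound (d g : ℤ) : ℤ := g * (d * (d + 1)) + (2 * g + 2 * (g * g) + 2 * ((d - 2) * (g * g / 4)))

omit [Fintype V] [DecidableEq V] in
lemma stp_symm {D : V → V → ℕ} (hD : GMet D) {U : Finset V} {x y : V}
    (h : Relation.ReflTransGen (stp D U) x y) : Relation.ReflTransGen (stp D U) y x := by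
  induction h with
  | refl => exact Relation.ReflTransGen.refl
  | tail _ h2 ih =>
    exact Relation.ReflTransGen.head ⟨h2.2.1, h2.1, by rw [hD.symm]; exact h2.2.2⟩ ih

theorem upper (G : SimpleGraph V) (hG : G.Connected) (d s : ℕ) (hdiam : G.diam = d)
    (hs : 1 ≤ s) (hsd : 2 * s ^ 2 + 1 ≤ d) (hn : Fintype.card V ≤ d - 2 + 4 * s) :
    d + 1 ≤ Fintype.card V ∧
    ∑ u, ∑ v, (G.dist u v : ℤ) ≤ PP d + Fbound d ((Fintype.card V : ℤ) - d - 1) := by
  classical
  have hne : Nonempty V := hG.nonempty
  have hD := gmet_of_connected hG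
  set D : V → V → ℕ := fun u v => G.dist u v with hDdef
  obtain ⟨u0, v0, huv⟩ := SimpleGraph.exists_dist_eq_diam (G := G)
  rw [hdiam] at huv
  obtain ⟨P, P0, Pd, P1, P2⟩ := hD.geo d u0 v0 huv
  have hP : ∀ i j, i ≤ j → j ≤ d → D (P i) (P j) = j - i := by
    intro i j hij hj
    have e1 := hD.chain P d (fun i hi => (P2 i hi).le) i j hij hj
    have e2 := P1 i (by omega)
    have e3 := P1 j hj
    have e4 := hD.tri (P i) (P j) v0
    omega
  have hP' : ∀ i j, i ≤ d → j ≤ d → D (P i) (P j) = (i - j) + (j - i) := by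
    intro i j hi hj
    rcases le_total i j with h | h
    · rw [hP i j h hj]; omega
    · rw [hD.symm, hP j i h hi]; omega
  have hle : ∀ u v, D u v ≤ d := by
    intro u v
    rw [← hdiam]
    exact SimpleGraph.dist_le_diam (SimpleGraph.connected_iff_ediam_ne_top.1 hG)
  -- cardinalities
  have hinj : Set.InjOn P (Finset.range (d + 1) : Finset ℕ) := by
    intro i hi j hj hij
    rw [Finset.coe_range, Set.mem_Iio] at hi hj
    have := hP' i j (by omega) (by omega)
    rw [hij, hD.self] at this
    omega
  have hcompl : (offP P d)ᶜ = (Finset.range (d + 1)).image P := by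
    ext v
    rw [Finset.mem_compl, not_mem_offP, Finset.mem_image]
    constructor
    · rintro ⟨i, hi, rfl⟩; exact ⟨i, Finset.mem_range.2 (by omega), rfl⟩
    · rintro ⟨i, hi, rfl⟩; exact ⟨i, by have := Finset.mem_range.1 hi; omega, rfl⟩
  have hcard : (offP P d).card + (d + 1) = Fintype.card V := by
    have h1 := Finset.card_compl (offP P d)
    rw [hcompl, Finset.card_image_of_injOn hinj, Finset.card_range] at h1
    have h2 := Finset.card_le_univ (offP P d)
    omega
  set U := offP P d with hU
  have hg : U.card + 3 ≤ 4 * s := by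
    have : 3 ≤ d := by nlinarith
    omega
  have h910 : U.card = 5 → 9 ≤ d := by
    intro h
    have : 2 ≤ s := by omega
    nlinarith
  -- the inequality
  have hI : IneqU D P d := by
    by_cases hA : U.card = 5 ∧ d ≤ 10 ∧ ∃ r ∈ U, ∀ u ∈ U,
        Relation.ReflTransGen (stp D U) u r
    · obtain ⟨h5, h10, r, hr, hreach⟩ := hA
      have := h910 h5
      exact hD.spec P d hP hle (by omega) h5 r hr hreach
    · have hcen : ∀ u ∈ offP P d, D u (P (d / 2)) ≤ d / 2 ∨ D u (P (d - d / 2)) ≤ d / 2 := by
        intro u hu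
        by_contra hc
        push Not at hc
        obtain ⟨S, hS, hdS, -, hreach⟩ := hD.centre P d (d / 2) hP hle (by omega) (by omega) u
          hc.1 hc.2
        have hSc := Finset.card_le_card hS
        have hdg : d ≤ 2 * U.card := by rw [hU]; omega
        have hs2 : s = 2 := by
          have h1 : 2 * s ^ 2 + 7 ≤ 8 * s := by omega
          have h2 : s < 4 := by
            by_contra h; push Not at h; nlinarith
          interval_cases s
          · omega
          · rfl
          · omega
        subst hs2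
        have h5 : U.card = 5 := by omega
        have h10 : d ≤ 10 := by omega
        apply hA
        refine ⟨h5, h10, u, hu, ?_⟩
        have hSU : S = U := by
          apply Finset.eq_of_subset_of_card_le hS
          rw [← hU, h5]; omega
        intro x hx
        rw [← hSU] at hx
        exact stp_symm hD (hreach x hx)
      refine hD.gen P d (d / 2) s hP (by omega) (by omega) hs hsd hg hcen ?_
      intro h5 h10 r hr hreach
      exact hA ⟨h5, h10, r, hr, hreach⟩
  -- total sum
  have hgZ : ((Fintype.card V : ℤ) - d - 1) = U.card := by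
    rw [← hcard]; push_cast; ring
  refine ⟨by omega, ?_⟩
  rw [hgZ]
  have split : ∀ f : V → ℤ, ∑ v, f v = ∑ v ∈ U, f v + ∑ i ∈ Finset.range (d + 1), f (P i) := by
    intro f
    rw [← Finset.sum_add_sum_compl U f, hcompl, Finset.sum_image hinj]
  have e1 : ∑ u, ∑ v, (D u v : ℤ) = (∑ u ∈ U, ∑ v ∈ U, (D u v : ℤ) +
      ∑ u ∈ U, ∑ i ∈ Finset.range (d + 1), (D u (P i) : ℤ)) +
      (∑ i ∈ Finset.range (d + 1), ∑ u ∈ U, (D (P i) u : ℤ) + PP d) := by
    rw [split, ← Finset.sum_add_distrib]
    congr 1
    · exact Finset.sum_congr rfl (fun u _ => split _)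
    · rw [PP, ← Finset.sum_add_distrib]
      apply Finset.sum_congr rfl
      intro i hi
      rw [split]
      congr 1
      apply Finset.sum_congr rfl
      intro j hj
      rw [Finset.mem_range] at hi hj
      rw [hP' i j (by omega) (by omega)]
      rcases le_total i j with h | h
      · rw [abs_of_nonpos (by have : (i : ℤ) ≤ j := by exact_mod_cast h
                              linarith)]
        omega
      · rw [abs_of_nonneg (by have : (j : ℤ) ≤ i := by exact_mod_cast h
                              linarith)]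
        omega
  have e2 : ∑ i ∈ Finset.range (d + 1), ∑ u ∈ U, (D (P i) u : ℤ) =
      ∑ u ∈ U, ∑ i ∈ Finset.range (d + 1), (D u (P i) : ℤ) := by
    rw [Finset.sum_comm]
    apply Finset.sum_congr rfl; intro u _
    apply Finset.sum_congr rfl; intro i _
    rw [hD.symm]
  unfold IneqU at hI
  rw [← hU] at hI
  have e3 : ∑ u, ∑ v, (G.dist u v : ℤ) = ∑ u, ∑ v, (D u v : ℤ) := rfl
  rw [e3, e1, e2]
  unfold Fbound
  linarith

end H75.WI
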